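import Pool.Agent.Helper60.FF.LibC

set_option autoImplicit false

namespace Pool.Agent.Helper60.FF

open Polynomial

theorem st_EXI (hT : ST_TRA) (hR : ST_RFA) : ST_EXI := by
  intro p n _ hPP K a ϖ hϖ T hTP
  obtain ⟨hT0, hTd, B, hB, hTP⟩ := hTP
  refine ⟨B, hB, ?_⟩
  intro E₁ π₁ f₁ hL₁ hE₀ ha hϖ' E π f M hL hE hM hlM hπ w hw hwB
  obtain ⟨ζ, hζE, hζ1, hζ2, hζ3⟩ := hL.tei w hw
  obtain ⟨Z, hZc, hZ⟩ := hTP E₁ π₁ f₁ hL₁ hE₀ ha hϖ' E π f M hL hE hM hlM hπ ζ hζE hζ2 hζ1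
    (by rw [hζ3]; exact hwB)
  obtain ⟨hfin, hcard⟩ := (hR p).2.2.1 f hL.fpos
  obtain ⟨ξ, hξ, hξZ⟩ : ∃ ξ ∈ Fq p f, ξ ∉ Z := by
    by_contra h
    push Not at h
    have h1 : ((Fq p f : Subfield (RF p)) : Set (RF p)) ⊆ (Z : Set (RF p)) := fun x hx => h x hx
    have h2 := Set.ncard_le_ncard h1 Z.finite_toSet
    rw [Set.ncard_coe_finset] at h2
    have h3 : ((Fq p f : Subfield (RF p)) : Set (RF p)).ncard = p ^ f := hcard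
    have h4 : p ^ 1 ≤ p ^ f := Nat.pow_le_pow_right hPP.prime.pos hL.fpos
    have h5 := hPP.big
    have h6 := hPP.npos
    rw [pow_one] at h4
    nlinarith
  obtain ⟨z, hzE, hz1, hz2, hz3⟩ := hL.tei ξ hξ
  have hϖ0 : (ϖ : ℂ_[p]) ≠ 0 := by
    intro h
    exact hϖ (Subtype.ext h)
  have haE : (a : ℂ_[p]) ∈ E := hE ha
  have hϖE : (ϖ : ℂ_[p]) ∈ E := hE hϖ'
  have hxE : (a : ℂ_[p]) + (ϖ : ℂ_[p]) * (ζ + π * z) ∈ E :=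
    add_mem haE (mul_mem hϖE (add_mem hζE (mul_mem hL.mem hzE)))
  have hpos : 0 < ‖(ϖ : ℂ_[p])‖ * ‖π‖ ^ 2 := mul_pos (norm_pos_iff.2 hϖ0) (pow_pos hL.pos 2)
  obtain ⟨τ, hτE, hτA, hτ⟩ := hT p K.A K.cnt E hL.fin _ hxE _ hpos
  have hid : (τ - (a : ℂ_[p])) / (ϖ : ℂ_[p]) - ζ - π * z =
      (τ - ((a : ℂ_[p]) + (ϖ : ℂ_[p]) * (ζ + π * z))) / (ϖ : ℂ_[p]) := by
    field_simp
    ring
  have hd : ‖(τ - (a : ℂ_[p])) / (ϖ : ℂ_[p]) - ζ - π * z‖ ≤ ‖π‖ ^ 2 := by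
    rw [hid, norm_div, div_le_iff₀ (norm_pos_iff.2 hϖ0), mul_comm (‖π‖ ^ 2)]
    exact hτ.le
  have hπz : ‖π * z‖ < 1 := by
    rw [norm_mul]
    calc ‖π‖ * ‖z‖ ≤ ‖π‖ * 1 := mul_le_mul_of_nonneg_left hz2 (norm_nonneg _)
      _ = ‖π‖ := mul_one _
      _ < 1 := hL.lt
  have hπ2 : ‖π‖ ^ 2 < 1 := pow_lt_one₀ (norm_nonneg _) hL.lt two_ne_zero
  have hyζ : ‖(τ - (a : ℂ_[p])) / (ϖ : ℂ_[p]) - ζ‖ < 1 := by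
    have h1 : (τ - (a : ℂ_[p])) / (ϖ : ℂ_[p]) - ζ =
        ((τ - (a : ℂ_[p])) / (ϖ : ℂ_[p]) - ζ - π * z) + π * z := by ring
    rw [h1]
    exact lt_of_le_of_lt (PadicComplex.isNonarchimedean p _ _) (max_lt (lt_of_le_of_lt hd hπ2) hπz)
  have hy : ‖(τ - (a : ℂ_[p])) / (ϖ : ℂ_[p])‖ ≤ 1 := by
    have h1 : (τ - (a : ℂ_[p])) / (ϖ : ℂ_[p]) = ((τ - (a : ℂ_[p])) / (ϖ : ℂ_[p]) - ζ) + ζ := by ring
    rw [h1]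
    exact (PadicComplex.isNonarchimedean p _ _).trans (max_le hyζ.le hζ2)
  have hres : res ((τ - (a : ℂ_[p])) / (ϖ : ℂ_[p])) = w := by
    rw [← hζ3]
    exact (res_eq_iff hy hζ2).2 hyζ
  refine ⟨τ, hτE, hτA, hy, hres, ?_⟩
  have h := hZ z hzE hz2 (by rw [hz3]; exact hξZ) τ hτE hτA hd
  rw [hζ3] at h
  exact h

end Pool.Agent.Helper60.FF
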