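import Mathlib

/-!
# Birational sections over function fields: Part A (algebra over fields of characteristic p, finite fields)

Blueprint: /team-store/ff_blueprint.md
-/

set_option autoImplicit false

namespace Pool.Agent.Helper60.FF

open Polynomial

/-- the points `i` (for `b = false`) and `w + i` (for `b = true`) -/
def pt {F : Type} [Field F] (w : F) (b : Bool) (i : ℕ) : F := (if b = true then w else 0) + (i : F)

/-- the basic linear system for a pair `(χ, ψ)` of polynomials of degree at most `n` -/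
def Sy {F : Type} [Field F] (n : ℕ) (w e : F) (A : Bool → ℕ → F) (χ ψ : Polynomial F) : Prop :=
  χ.natDegree ≤ n ∧ ψ.natDegree ≤ n ∧ ∀ (b : Bool) (i : ℕ), i ≤ 2 * n →
    ψ.eval (pt w b i) + (if b = true then e * (derivative χ).eval (pt w b i) else 0) =
      A b i * χ.eval (pt w b i)

/-- coefficientwise derivative of a polynomial in `X` with coefficients in `F[y]` -/
noncomputable def dY {F : Type} [Field F] (T : Polynomial (Polynomial F)) : Polynomial (Polynomial F) :=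
  T.sum fun j a => monomial j (derivative a)

theorem coeff_dY {F : Type} [Field F] (T : Polynomial (Polynomial F)) (j : ℕ) :
    (dY T).coeff j = derivative (T.coeff j) := by
  classical
  unfold dY
  rw [Polynomial.sum_def, finsetSum_coeff]
  simp only [coeff_monomial]
  rw [Finset.sum_ite_eq' T.support j]
  split_ifs with h
  · rfl
  · rw [notMem_support_iff.1 h, derivative_zero]

/-- specialization `y ↦ w` of a polynomial in `X` with coefficients in `F[y]` -/
noncomputable def sp {F : Type} [Field F] (w : F) (T : Polynomial (Polynomial F)) : Polynomial F :=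
  T.map (evalRingHom w)

/-- specialization at a point `w` of a larger field -/
noncomputable def spA {F₁ F : Type} [Field F₁] [Field F] [Algebra F₁ F] (w : F)
    (T : Polynomial (Polynomial F₁)) : Polynomial F :=
  T.map (aeval w : Polynomial F₁ →ₐ[F₁] F).toRingHom

/-! ## Statements of Part A -/

/-- UNQL: the solution of the basic system is unique up to scalars -/
def ST_UNQL : Prop :=
  ∀ (F : Type) [Field F] (p n : ℕ), p.Prime → CharP F p → 2 * n < p →
    ∀ (w e : F) (A : Bool → ℕ → F) (χ₁ ψ₁ χ₂ ψ₂ : Polynomial F), e ≠ 0 →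
      Sy n w e A χ₁ ψ₁ → Sy n w e A χ₂ ψ₂ → χ₁ ≠ 0 → ∃ s : F, χ₂ = C s * χ₁ ∧ ψ₂ = C s * ψ₁

/-- LAP: kernel vectors of a matrix with entries of degree `≤ 1` depend polynomially on the parameter -/
def ST_LAP : Prop :=
  ∀ (F : Type) [Field F] (m : ℕ) (ι : Type) [Fintype ι] (M : ι → Fin (m + 1) → Polynomial F) (z₁ : F),
    (∀ i j, (M i j).natDegree ≤ 1) →
    (∀ u v : Fin (m + 1) → F, (∀ i, ∑ j, (M i j).eval z₁ * u j = 0) →
      (∀ i, ∑ j, (M i j).eval z₁ * v j = 0) → u ≠ 0 → ∃ s : F, v = s • u) →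
    ∃ (κ : Fin (m + 1) → Polynomial F) (d : Polynomial F), d ≠ 0 ∧ d.natDegree ≤ m ∧
      (∀ j, (κ j).natDegree ≤ m) ∧
      ∀ z : F, d.eval z ≠ 0 → ∀ v : Fin (m + 1) → F, (∀ i, ∑ j, (M i j).eval z * v j = 0) →
        ∃ s : F, ∀ j, v j = s * (κ j).eval z

/-- CNT: a rational function of degree `≤ D` with values in a coset of the `2D`-th powers is constant -/
def ST_CNT : Prop :=
  ∀ (F : Type) [Field F] [Fintype F] (D : ℕ), 0 < D → 2 * D ∣ Fintype.card F - 1 →
    6 * D ≤ Fintype.card F → ∀ (P Q d : Polynomial F) (c : F), P ≠ 0 → Q ≠ 0 → d ≠ 0 →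
    P.natDegree ≤ D → Q.natDegree ≤ D → d.natDegree ≤ D →
    (∀ z : F, d.eval z ≠ 0 → P.eval z ≠ 0 → Q.eval z ≠ 0 → ∃ s : F, s ≠ 0 ∧
      P.eval z = c * Q.eval z * s ^ (2 * D)) →
    ∃ r : F, r ≠ 0 ∧ P = C r * Q

/-- FINF: the finite field statement behind P1 -/
def ST_FINF : Prop :=
  ∀ (F : Type) [Field F] [Fintype F] (p n : ℕ), p.Prime → CharP F p → 0 < n → 2 * n < p →
    4 * n + 2 ∣ Fintype.card F - 1 → 12 * n + 6 ≤ Fintype.card F →
    ∀ (w : F) (α ω : Bool → ℕ → F) (c : ℕ → ℕ → F) (S : F → Polynomial F → Polynomial F → Prop),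
      (∀ z : F, ∃ χ ψ, S z χ ψ) →
      (∀ z χ ψ, S z χ ψ → χ ≠ 0 ∧ Sy n w z (fun b i => α b i + z * ω b i) χ ψ ∧
        ∀ i j : ℕ, i ≤ n → j ≤ n → χ.eval (i : F) ≠ 0 → χ.eval (j : F) ≠ 0 → ∃ s : F, s ≠ 0 ∧
          χ.eval (i : F) = c i j * χ.eval (j : F) * s ^ (4 * n + 2)) →
      ∃ (χ₀ ψ₁ : Polynomial F) (Z : Finset F), χ₀ ≠ 0 ∧ Sy n w 1 ω χ₀ ψ₁ ∧ Z.card ≤ 2 * n + 1 ∧
        ∀ z, z ∉ Z → ∀ χ ψ, S z χ ψ → ∃ s : F, s ≠ 0 ∧ χ = C s * χ₀

/-- TDEF: the solution of the basic system depends rationally on `w` -/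
def ST_TDEF : Prop :=
  ∀ (F₁ F : Type) [Field F₁] [Field F] [Algebra F₁ F] (p n : ℕ), p.Prime → CharP F p → 2 * n < p →
    ∀ U V : Bool → ℕ → Polynomial F₁, (∀ b i, V b i ≠ 0) →
      {w : F | ∃ χ ψ : Polynomial F, χ ≠ 0 ∧
        Sy n w 1 (fun b i => aeval w (U b i) / aeval w (V b i)) χ ψ}.Infinite →
      ∃ T : Polynomial (Polynomial F₁), T ≠ 0 ∧ T.natDegree ≤ n ∧
        {w : F | ∃ χ ψ : Polynomial F, χ ≠ 0 ∧
          Sy n w 1 (fun b i => aeval w (U b i) / aeval w (V b i)) χ ψ ∧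
          ¬ ∃ s : F, s ≠ 0 ∧ χ = C s * spA w T}.Finite

/-- ELEM: a polynomial over a finite field which is an `N`-th power modulo almost all primes -/
def ST_ELEM : Prop :=
  ∀ (F : Type) [Field F] [Fintype F] (N : ℕ), 0 < N → N ∣ Fintype.card F - 1 →
    ∀ f : Polynomial F, f ≠ 0 →
      {P : Polynomial F | P.Monic ∧ Irreducible P ∧ ¬ ∃ g : Polynomial F, P ∣ f - g ^ N}.Finite →
      ∃ g : Polynomial F, f = g ^ N

/-- FROB: extraction of Frobenius roots of an irreducible polynomial in `F[y][X]` -/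
def ST_FROB : Prop :=
  ∀ (F : Type) [Field F] [IsAlgClosed F] (p : ℕ) (_ : p.Prime) (_ : CharP F p)
    (T : Polynomial (Polynomial F)), Irreducible T → (∃ j, 0 < (T.coeff j).natDegree) →
    ∃ (S : Polynomial (Polynomial F)) (a : ℕ), Irreducible S ∧ S.natDegree = T.natDegree ∧
      dY S ≠ 0 ∧ ∀ i : ℕ, T.eval (i : Polynomial F) = (S.eval (i : Polynomial F)) ^ (p ^ a)

/-- FACM: replacement of `T` by a square free polynomial without inseparable factors -/
def ST_FACM : Prop :=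
  ∀ (F : Type) [Field F] [IsAlgClosed F] (p n l : ℕ) (_ : p.Prime) (_ : CharP F p), l ∣ p - 1 → n < l →
    ∀ T : Polynomial (Polynomial F), T.natDegree ≤ n → (∀ w : F, sp w T ≠ 0) →
    (∃ j, 0 < (T.coeff j).natDegree) →
    ∃ S : Polynomial (Polynomial F), S.natDegree ≤ n ∧ (∀ w : F, sp w S ≠ 0) ∧
      (∃ j, 0 < (S.coeff j).natDegree) ∧
      (∀ G : Polynomial (Polynomial F), G ∣ S → G ∣ dY S → G.natDegree = 0) ∧
      ∀ i : ℕ, T.eval (i : Polynomial F) ≠ 0 → S.eval (i : Polynomial F) ≠ 0 ∧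
        (∀ w : F, (T.eval (i : Polynomial F)).eval w ≠ 0 → (S.eval (i : Polynomial F)).eval w ≠ 0) ∧
        ((∀ w : F, l ∣ (T.eval (i : Polynomial F)).rootMultiplicity w) →
          ∀ w : F, (S.eval (i : Polynomial F)).rootMultiplicity w ≠ 1)

/-- RESB: resultant of `S` and its derivative in `y` -/
def ST_RESB : Prop :=
  ∀ (F : Type) [Field F] (d : ℕ) (S : Polynomial (Polynomial F)), 0 < S.natDegree → 0 < d →
    (∀ j, (S.coeff j).natDegree ≤ d) →
    (∀ G : Polynomial (Polynomial F), G ∣ S → G ∣ dY S → G.natDegree = 0) →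
    ∃ (U V : Polynomial (Polynomial F)) (R : Polynomial F), R ≠ 0 ∧ U * S + V * dY S = C R ∧
      R.natDegree < 2 * S.natDegree * d

/-- L2C: the constancy criterion -/
def ST_L2C : Prop :=
  ∀ (F : Type) [Field F] [IsAlgClosed F] (p n l : ℕ) (_ : p.Prime) (_ : CharP F p), l ∣ p - 1 → n < l →
    0 < n → 4 * n ^ 2 + 2 * n ≤ p → ∀ (T : Polynomial (Polynomial F)) (w₀ : F), T ≠ 0 →
    T.natDegree ≤ n →
    (∀ w : F, w ≠ w₀ → ∀ i j : ℕ, i < 4 * n ^ 2 + 2 * n → j < 4 * n ^ 2 + 2 * n →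
      T.eval (i : Polynomial F) ≠ 0 → T.eval (j : Polynomial F) ≠ 0 →
      (l : ℤ) ∣ ((T.eval (i : Polynomial F)).rootMultiplicity w : ℤ) -
        (T.eval (j : Polynomial F)).rootMultiplicity w) →
    ∃ (P : Polynomial F) (φ : Polynomial F), P ≠ 0 ∧ φ ≠ 0 ∧ φ.natDegree ≤ n ∧
      T = C P * φ.map C

/-- WRO: two polynomials whose values at `X = c` and `X = c + u` are proportional are proportional -/
def ST_WRO : Prop :=
  ∀ (K : Type) [Field K] [CharZero K] (F G : Polynomial (Polynomial K)) (S : Set K), S.Infinite →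
    G ≠ 0 →
    (∀ c ∈ S, ∃ a b : K, (a ≠ 0 ∨ b ≠ 0) ∧ C a * F.eval (C c) = C b * G.eval (C c)) →
    (∀ c ∈ S, ∃ a b : K, (a ≠ 0 ∨ b ≠ 0) ∧ C a * F.eval (C c + X) = C b * G.eval (C c + X)) →
    ∃ r : K, F = C (C r) * G

end Pool.Agent.Helper60.FF
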