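import Pool.Agent.Helper25.FF.CNJ
import Pool.Agent.Helper92.FF.CNT
import Pool.Agent.Helper67.FF.CPT
import Pool.Agent.Helper59.FF.DER
import Pool.Agent.Helper96.FF.DI
import Pool.Agent.Helper63.FF.DIC
import Pool.Agent.Helper37.FF.DIR
import Pool.Agent.Helper44.FF.DNS
import Pool.Agent.Helper9.FF.DSK
import Pool.Agent.Helper99.FF.EDG
import Pool.Agent.Helper7.FF.EDV
import Pool.Agent.Helper93.FF.ELEM
import Pool.Agent.Helper46.FF.EVH
import Pool.Agent.Helper60.FF.EXI
import Pool.Agent.Helper28.FF.FACM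
import Pool.Agent.Helper74.FF.FCT
import Pool.Agent.Helper32.FF.FDV
import Pool.Agent.Helper63.FF.FINF
import Pool.Agent.Helper13.FF.FINQ
import Pool.Agent.Helper46.FF.FND
import Pool.Agent.Helper45.FF.FROB
import Pool.Agent.Helper3.FF.GDX
import Pool.Agent.Helper13.FF.L2
import Pool.Agent.Helper37.FF.L2C
import Pool.Agent.Helper13.FF.L3
import Pool.Agent.Helper9.FF.L3D
import Pool.Agent.Helper41.FF.L4
import Pool.Agent.Helper41.FF.L5
import Pool.Agent.Helper55.FF.L5A
import Pool.Agent.Helper9.FF.LAP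
import Pool.Agent.Helper63.FF.LFX
import Pool.Agent.Helper75.FF.M1
import Pool.Agent.Helper67.FF.M2
import Pool.Agent.Helper80.FF.MAIN
import Pool.Agent.Helper46.FF.NPW
import Pool.Agent.Helper11.FF.NRV
import Pool.Agent.Helper74.FF.ORD
import Pool.Agent.Helper44.FF.OVE
import Pool.Agent.Helper74.FF.OVF
import Pool.Agent.Helper37.FF.P1
import Pool.Agent.Helper91.FF.P1A
import Pool.Agent.Helper97.FF.P3
import Pool.Agent.Helper35.FF.PWR
import Pool.Agent.Helper52.FF.R1
import Pool.Agent.Helper85.FF.R1A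
import Pool.Agent.Helper91.FF.RAMX
import Pool.Agent.Helper53.FF.RDU
import Pool.Agent.Helper38.FF.RED
import Pool.Agent.Helper9.FF.RESB
import Pool.Agent.Helper44.FF.RFA
import Pool.Agent.Helper44.FF.SGF
import Pool.Agent.Helper32.FF.SPL
import Pool.Agent.Helper55.FF.TDEF
import Pool.Agent.Helper32.FF.TRA
import Pool.Agent.Helper50.FF.UNQL
import Pool.Agent.Helper71.FF.VTX
import Pool.Agent.Helper67.FF.WEI
import Pool.Agent.Helper9.FF.WRO

/-!
# Part II: assembly
-/

set_option autoImplicit false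

namespace Pool.Agent.Helper60.FF

theorem all_CNJ : ST_CNJ := st_CNJ

theorem all_CNT : ST_CNT := st_CNT

theorem all_DER : ST_DER := st_DER

theorem all_DIR : ST_DIR := st_DIR

theorem all_ELEM : ST_ELEM := st_ELEM

theorem all_EVH : ST_EVH := st_EVH

theorem all_FROB : ST_FROB := st_FROB

theorem all_LAP : ST_LAP := st_LAP

theorem all_NPW : ST_NPW := st_NPW

theorem all_NRV : ST_NRV := st_NRV all_EVH

theorem all_ORD : ST_ORD := st_ORD

theorem all_OVE : ST_OVE := st_OVE

theorem all_OVF : ST_OVF := st_OVF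

theorem all_PWR : ST_PWR := st_PWR

theorem all_RDU : ST_RDU := st_RDU

theorem all_RED : ST_RED := st_RED

theorem all_RESB : ST_RESB := st_RESB

theorem all_RFA : ST_RFA := st_RFA

theorem all_SGF : ST_SGF := st_SGF all_ORD

theorem all_TRA : ST_TRA := st_TRA

theorem all_UNQL : ST_UNQL := st_UNQL

theorem all_WRO : ST_WRO := st_WRO

theorem all_EXI : ST_EXI := st_EXI all_TRA all_RFA

theorem all_FACM : ST_FACM := st_FACM all_FROB

theorem all_FCT : ST_FCT := st_FCT all_ORD

theorem all_FDV : ST_FDV := st_FDV all_RFA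

theorem all_FINF : ST_FINF := st_FINF all_UNQL all_LAP all_CNT

theorem all_FINQ : ST_FINQ := st_FINQ all_FINF all_RFA

theorem all_L2C : ST_L2C := st_L2C all_FACM all_RESB

theorem all_LFX : ST_LFX := st_LFX all_RFA

theorem all_M1 : ST_M1 := st_M1 all_NRV all_TRA all_LFX all_OVE all_EVH

theorem all_M2 : ST_M2 := st_M2 all_WRO

theorem all_P1A : ST_P1A := st_P1A all_DER all_FDV all_EVH

theorem all_RAMX : ST_RAMX := st_RAMX all_RFA

theorem all_SPL : ST_SPL := st_SPL all_CNJ all_FCT all_ORD all_EVH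

theorem all_TDEF : ST_TDEF := st_TDEF all_UNQL

theorem all_WEI : ST_WEI := st_WEI all_LFX

theorem all_CPT : ST_CPT := st_CPT all_PWR all_LFX

theorem all_DI : ST_DI := st_DI all_DER all_RDU all_RAMX all_LFX all_RFA all_TRA

theorem all_DNS : ST_DNS := st_DNS all_LFX

theorem all_L4 : ST_L4 := st_L4 all_EXI all_RAMX all_NRV all_LFX all_RFA all_RDU all_EVH all_ORD

theorem all_L5A : ST_L5A := st_L5A all_L4 all_SPL all_CPT all_EXI all_RAMX all_LFX all_RFA all_EVH all_RDU all_ORD all_OVF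

theorem all_P1 : ST_P1 := st_P1 all_P1A all_FINQ all_TDEF all_RED all_LFX all_FDV all_RFA all_RAMX all_TRA all_RDU all_OVF

theorem all_P3 : ST_P3 := st_P3 all_EXI all_ELEM all_RAMX all_RFA all_RDU all_EVH

theorem all_DIC : ST_DIC := st_DIC all_DI all_P1 all_RDU all_RFA

theorem all_L2 : ST_L2 := st_L2 all_P1 all_P3 all_DIR all_L2C all_DIC all_LFX all_RED all_ORD all_RFA all_OVF

theorem all_L3D : ST_L3D := st_L3D all_P3 all_DIC all_NPW all_RAMX all_ORD all_OVF all_EVH

theorem all_L5 : ST_L5 := st_L5 all_L5A all_RDU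

theorem all_VTX : ST_VTX := st_VTX all_P1 all_EXI all_L5 all_RDU all_RAMX all_LFX all_RFA

theorem all_DSK : ST_DSK := st_DSK all_L5 all_WEI all_NRV all_TRA all_LFX all_EVH all_ORD

theorem all_L3 : ST_L3 := st_L3 all_L3D all_LFX all_SGF

theorem all_EDG : ST_EDG := st_EDG all_L2 all_L3 all_DIC all_SGF

theorem all_EDV : ST_EDV := st_EDV all_L3 all_DIC

theorem all_GDX : ST_GDX := st_GDX all_L2 all_L3 all_DIC

theorem all_FND : ST_FND := st_FND all_EDG all_VTX all_EDV all_GDX all_L5 all_DNS all_SGF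

theorem all_R1A : ST_R1A := st_R1A all_FND all_DSK all_L4 all_DIC all_DNS all_RFA all_RDU all_ORD

theorem all_R1 : ST_R1 := st_R1 all_R1A all_FCT all_PWR all_OVE all_EVH all_OVF all_ORD

theorem all_MAIN : ST_MAIN := st_MAIN all_R1 all_M1 all_M2 all_EVH

end Pool.Agent.Helper60.FF
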