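import Pool.Agent.Helper60.FF.DefsA

/-!
# Birational sections over function fields: Part B (local fields in `ℂ_p`, rational functions over `A`)

Blueprint: /team-store/ff_blueprint.md, section II.1
-/

set_option autoImplicit false

namespace Pool.Agent.Helper60.FF

open Polynomial

section

variable (p : ℕ) [hp : Fact p.Prime]

/-- the ring of integers of `ℂ_p` -/
def OO : ValuationSubring ℂ_[p] where
  carrier := {x | ‖x‖ ≤ 1}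
  mul_mem' := by
    intro a b ha hb
    show ‖a * b‖ ≤ 1
    rw [norm_mul]
    exact mul_le_one₀ ha (norm_nonneg b) hb
  one_mem' := by show ‖(1 : ℂ_[p])‖ ≤ 1; rw [norm_one]
  add_mem' := by
    intro a b ha hb
    show ‖a + b‖ ≤ 1
    exact (PadicComplex.isNonarchimedean p a b).trans (max_le ha hb)
  zero_mem' := by show ‖(0 : ℂ_[p])‖ ≤ 1; rw [norm_zero]; exact zero_le_one
  neg_mem' := by
    intro a ha
    show ‖-a‖ ≤ 1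
    rw [norm_neg]
    exact ha
  mem_or_inv_mem' := by
    intro a
    rcases le_total ‖a‖ 1 with h | h
    · exact Or.inl h
    · refine Or.inr ?_
      show ‖a⁻¹‖ ≤ 1
      rw [norm_inv]
      exact inv_le_one_of_one_le₀ h

/-- the residue field of `ℂ_p` -/
abbrev RF : Type := IsLocalRing.ResidueField (OO p)

variable {p}

theorem mem_OO (x : ℂ_[p]) : x ∈ OO p ↔ ‖x‖ ≤ 1 := Iff.rfl

open Classical in
/-- the residue of an element of `ℂ_p` (`0` outside the ring of integers) -/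
noncomputable def res (x : ℂ_[p]) : RF p :=
  if h : x ∈ OO p then IsLocalRing.residue (OO p) ⟨x, h⟩ else 0

theorem res_def {x : ℂ_[p]} (h : ‖x‖ ≤ 1) : res x = IsLocalRing.residue (OO p) ⟨x, h⟩ :=
  dif_pos h

theorem res_add {x y : ℂ_[p]} (hx : ‖x‖ ≤ 1) (hy : ‖y‖ ≤ 1) : res (x + y) = res x + res y := by
  have h : ‖x + y‖ ≤ 1 := (OO p).add_mem x y hx hy
  rw [res_def hx, res_def hy, res_def h, ← map_add]
  rfl

theorem res_mul {x y : ℂ_[p]} (hx : ‖x‖ ≤ 1) (hy : ‖y‖ ≤ 1) : res (x * y) = res x * res y := by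
  have h : ‖x * y‖ ≤ 1 := (OO p).mul_mem x y hx hy
  rw [res_def hx, res_def hy, res_def h, ← map_mul]
  rfl

theorem res_neg {x : ℂ_[p]} (hx : ‖x‖ ≤ 1) : res (-x) = -res x := by
  have h : ‖-x‖ ≤ 1 := by rw [norm_neg]; exact hx
  rw [res_def hx, res_def h, ← map_neg]
  rfl

theorem res_sub {x y : ℂ_[p]} (hx : ‖x‖ ≤ 1) (hy : ‖y‖ ≤ 1) : res (x - y) = res x - res y := by
  have h : ‖-y‖ ≤ 1 := by rw [norm_neg]; exact hy
  rw [sub_eq_add_neg, res_add hx h, res_neg hy, ← sub_eq_add_neg]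

theorem res_one : res (1 : ℂ_[p]) = 1 := by
  have h : ‖(1 : ℂ_[p])‖ ≤ 1 := by rw [norm_one]
  rw [res_def h]
  exact map_one _

theorem res_zero : res (0 : ℂ_[p]) = 0 := by
  have h : ‖(0 : ℂ_[p])‖ ≤ 1 := by rw [norm_zero]; exact zero_le_one
  rw [res_def h]
  exact map_zero _

theorem res_eq_zero {x : ℂ_[p]} (hx : ‖x‖ ≤ 1) : res x = 0 ↔ ‖x‖ < 1 := by
  rw [res_def hx, IsLocalRing.residue_eq_zero_iff, IsLocalRing.mem_maximalIdeal, mem_nonunits_iff]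
  constructor
  · intro h
    by_contra h1
    apply h
    have h2 : ‖x‖ = 1 := le_antisymm hx (not_lt.1 h1)
    have h0 : x ≠ 0 := by
      intro h0
      rw [h0, norm_zero] at h2
      exact zero_ne_one h2
    have h3 : ‖x⁻¹‖ ≤ 1 := by rw [norm_inv, h2, inv_one]
    refine IsUnit.of_mul_eq_one (⟨x⁻¹, h3⟩ : OO p) ?_
    exact Subtype.ext (mul_inv_cancel₀ h0)
  · intro h h1
    obtain ⟨y, hy⟩ := h1.exists_right_inv
    have h2 : x * (y : ℂ_[p]) = 1 := congrArg Subtype.val hy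
    have h3 : ‖x‖ * ‖(y : ℂ_[p])‖ = 1 := by rw [← norm_mul, h2, norm_one]
    have h4 : ‖(y : ℂ_[p])‖ ≤ 1 := y.2
    nlinarith [norm_nonneg x, norm_nonneg (y : ℂ_[p])]

theorem res_surj (ξ : RF p) : ∃ x : ℂ_[p], ‖x‖ ≤ 1 ∧ res x = ξ := by
  obtain ⟨x, hx⟩ := IsLocalRing.residue_surjective ξ
  refine ⟨x.1, x.2, ?_⟩
  rw [res_def x.2]
  exact hx

theorem res_pow {x : ℂ_[p]} (hx : ‖x‖ ≤ 1) (n : ℕ) : res (x ^ n) = res x ^ n := by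
  induction n with
  | zero => rw [pow_zero, pow_zero, res_one]
  | succ n ih =>
    rw [pow_succ, pow_succ, res_mul ?_ hx, ih]
    rw [norm_pow]
    exact pow_le_one₀ (norm_nonneg x) hx

theorem res_natCast (n : ℕ) : res ((n : ℕ) : ℂ_[p]) = (n : RF p) := by
  have h : ‖((n : ℕ) : ℂ_[p])‖ ≤ 1 := by
    exact (mem_OO _).1 (natCast_mem (OO p) n)
  rw [res_def h]
  exact map_natCast (IsLocalRing.residue (OO p)) n

theorem norm_eq_one_iff {x : ℂ_[p]} (hx : ‖x‖ ≤ 1) : ‖x‖ = 1 ↔ res x ≠ 0 := by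
  rw [Ne, res_eq_zero hx, not_lt]
  exact ⟨fun h => h.ge, fun h => le_antisymm hx h⟩

theorem res_eq_iff {x y : ℂ_[p]} (hx : ‖x‖ ≤ 1) (hy : ‖y‖ ≤ 1) : res x = res y ↔ ‖x - y‖ < 1 := by
  rw [← sub_eq_zero, ← res_sub hx hy]
  exact res_eq_zero ((OO p).sub_mem hx hy)

theorem norm_p : ‖(p : ℂ_[p])‖ = (p : ℝ)⁻¹ := by
  have h2 := PadicComplex.norm_extends' p (p : ℚ_[p])
  rw [Padic.norm_p] at h2
  have h3 : (((p : ℚ_[p]) : ℂ_[p])) = (p : ℂ_[p]) := map_natCast (algebraMap ℚ_[p] ℂ_[p]) p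
  rw [← h3]
  exact h2

instance : CharP (RF p) p := by
  have h1 : ((p : ℕ) : RF p) = 0 := by
    rw [← res_natCast, res_eq_zero]
    · rw [norm_p]
      exact inv_lt_one_of_one_lt₀ (by exact_mod_cast hp.out.one_lt)
    · rw [norm_p]
      exact inv_le_one_of_one_le₀ (by exact_mod_cast hp.out.one_lt.le)
  exact (CharP.charP_iff_prime_eq_zero hp.out).2 h1

/-- the subfield with `p ^ f` elements of the residue field (for `0 < f`) -/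
def Fq (p : ℕ) [hp : Fact p.Prime] (f : ℕ) : Subfield (RF p) where
  carrier := {x | x ^ (p ^ f) = x}
  mul_mem' := by
    intro a b ha hb
    show (a * b) ^ (p ^ f) = a * b
    rw [mul_pow, show a ^ (p ^ f) = a from ha, show b ^ (p ^ f) = b from hb]
  one_mem' := one_pow _
  add_mem' := by
    intro a b ha hb
    show (a + b) ^ (p ^ f) = a + b
    rw [add_pow_char_pow, show a ^ (p ^ f) = a from ha, show b ^ (p ^ f) = b from hb]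
  zero_mem' := zero_pow (pow_ne_zero f hp.out.ne_zero)
  neg_mem' := by
    intro a ha
    show (-a) ^ (p ^ f) = -a
    have h0 : (a + -a) ^ (p ^ f) = 0 := by
      rw [add_neg_cancel]
      exact zero_pow (pow_ne_zero f hp.out.ne_zero)
    rw [add_pow_char_pow, show a ^ (p ^ f) = a from ha] at h0
    exact (neg_eq_of_add_eq_zero_right h0).symm
  inv_mem' := by
    intro a ha
    show (a⁻¹) ^ (p ^ f) = a⁻¹
    rw [inv_pow, show a ^ (p ^ f) = a from ha]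

theorem mem_Fq {f : ℕ} {x : RF p} : x ∈ Fq p f ↔ x ^ (p ^ f) = x := Iff.rfl

/-- local field data: `E` is a finite extension of `ℚ_p` with uniformizer `π` and residue field `Fq p f` -/
structure LF (E : IntermediateField ℚ_[p] ℂ_[p]) (π : ℂ_[p]) (f : ℕ) : Prop where
  fin : FiniteDimensional ℚ_[p] E
  mem : π ∈ E
  pos : 0 < ‖π‖
  lt : ‖π‖ < 1
  val : ∀ x ∈ E, x ≠ 0 → ∃ j : ℤ, ‖x‖ = ‖π‖ ^ j
  fpos : 0 < f
  rs : ∀ x ∈ E, ‖x‖ ≤ 1 → res x ^ (p ^ f) = res x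
  tei : ∀ ξ : RF p, ξ ^ (p ^ f) = ξ → ∃ z ∈ E, z ^ (p ^ f) = z ∧ ‖z‖ ≤ 1 ∧ res z = ξ

/-- the derivation `D` of the ring of integers of `E` into the residue field -/
noncomputable def Dv (π : ℂ_[p]) (f : ℕ) (x : ℂ_[p]) : RF p := res ((x - x ^ (p ^ f)) / π)

/-- coefficientwise residues of a polynomial -/
noncomputable def rd (P : Polynomial ℂ_[p]) : Polynomial (RF p) :=
  P.sum fun j a => monomial j (res a)

theorem coeff_rd (P : Polynomial ℂ_[p]) (j : ℕ) : (rd P).coeff j = res (P.coeff j) := by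
  classical
  unfold rd
  rw [Polynomial.sum_def, finsetSum_coeff]
  simp only [coeff_monomial]
  rw [Finset.sum_ite_eq' P.support j]
  split_ifs with h
  · rfl
  · rw [notMem_support_iff.1 h, res_zero]

/-- the polynomial has coefficients in `E` of norm at most `1` -/
def Int' (E : IntermediateField ℚ_[p] ℂ_[p]) (P : Polynomial ℂ_[p]) : Prop :=
  ∀ j, P.coeff j ∈ E ∧ ‖P.coeff j‖ ≤ 1

/-- `φ` is (proportional to) the reduction of `χ` -/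
def Red (χ : Polynomial ℂ_[p]) (φ : Polynomial (RF p)) : Prop :=
  φ ≠ 0 ∧ ∃ r : ℂ_[p], r ≠ 0 ∧ ∀ j, ‖r * χ.coeff j‖ ≤ 1 ∧ res (r * χ.coeff j) = φ.coeff j

section

variable (A : Subfield ℂ_[p])

/-- evaluation of a rational function over `A` -/
noncomputable def ev (τ : ℂ_[p]) (c : RatFunc A) : ℂ_[p] := RatFunc.eval A.subtype τ c

/-- the rational function `c` is defined over `A ∩ E` -/
def Ov (E : IntermediateField ℚ_[p] ℂ_[p]) (c : RatFunc A) : Prop :=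
  ∃ P Q : Polynomial A, Q ≠ 0 ∧ (∀ j, ((P.coeff j : A) : ℂ_[p]) ∈ E) ∧
    (∀ j, ((Q.coeff j : A) : ℂ_[p]) ∈ E) ∧
    c * algebraMap (Polynomial A) (RatFunc A) Q = algebraMap (Polynomial A) (RatFunc A) P

/-- the order of a rational function at a point of `A` -/
noncomputable def ordv (v : A) (h : RatFunc A) : ℤ :=
  (h.num.rootMultiplicity v : ℤ) - (h.denom.rootMultiplicity v : ℤ)

/-- the coordinate `(u - a) / ϖ` -/
noncomputable def yy (a ϖ : A) : RatFunc A := (RatFunc.X - RatFunc.C a) / RatFunc.C ϖ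

variable {A}

/-- `h = κ P(y) / Q(y)`, `y = (u - a) / ϖ`, with `P`, `Q` integral over `E` with nonzero reductions -/
structure Rdx (E : IntermediateField ℚ_[p] ℂ_[p]) (κ : ℂ_[p]) (h : RatFunc A) (a ϖ : ℂ_[p])
    (P Q : Polynomial ℂ_[p]) : Prop where
  cP : Int' E P
  cQ : Int' E Q
  rP : rd P ≠ 0
  rQ : rd Q ≠ 0
  κE : κ ∈ E
  κ0 : κ ≠ 0
  eq : ∀ τ : ℂ_[p], τ ∉ A → P.eval ((τ - a) / ϖ) ≠ 0 ∧ Q.eval ((τ - a) / ϖ) ≠ 0 ∧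
    ev A τ h * Q.eval ((τ - a) / ϖ) = κ * P.eval ((τ - a) / ϖ)

end

end

/-! ## Statements of Part B -/

/-- RFA: the residue field of `ℂ_p` is an algebraic closure of `𝔽_p`; cardinality of `Fq p f`. -/
def ST_RFA : Prop :=
  ∀ (p : ℕ) [Fact p.Prime], IsAlgClosed (RF p) ∧
    (∀ ξ : RF p, ∃ f : ℕ, 0 < f ∧ ξ ∈ Fq p f) ∧
    (∀ f : ℕ, 0 < f → Finite (Fq p f) ∧ Nat.card (Fq p f) = p ^ f) ∧
    (∀ f g : ℕ, 0 < f → 0 < g → (Fq p f ≤ Fq p g ↔ f ∣ g))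

/-- LFX: every finite extension of `ℚ_p` has local field data with uniformizer in `A`. -/
def ST_LFX : Prop :=
  ∀ (p : ℕ) [Fact p.Prime] (A : Subfield ℂ_[p]), IsAlgClosed A →
    ∀ E : IntermediateField ℚ_[p] ℂ_[p], FiniteDimensional ℚ_[p] E →
      (∀ x ∈ E, ∀ δ : ℝ, 0 < δ → ∃ a ∈ A, a ∈ E ∧ ‖x - a‖ < δ) ∧
      ∃ π ∈ A, ∃ f : ℕ, LF E π f

/-- RAMX: extensions with prescribed residue field and ramification. -/
def ST_RAMX : Prop :=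
  ∀ (p : ℕ) [Fact p.Prime] (E₁ : IntermediateField ℚ_[p] ℂ_[p]) (π₁ : ℂ_[p]) (f₁ : ℕ), LF E₁ π₁ f₁ →
    ∀ (f M : ℕ) (π : ℂ_[p]), f₁ ∣ f → 0 < f → 0 < M → π ^ M = π₁ →
      ∃ E : IntermediateField ℚ_[p] ℂ_[p], E₁ ≤ E ∧ LF E π f

/-- FDV: residue degrees. -/
def ST_FDV : Prop :=
  ∀ (p : ℕ) [Fact p.Prime] (E₁ E : IntermediateField ℚ_[p] ℂ_[p]) (π₁ π : ℂ_[p]) (f₁ f : ℕ),
    LF E₁ π₁ f₁ → LF E π f → E₁ ≤ E → f₁ ∣ f ∧ ∃ M : ℕ, 0 < M ∧ ‖π‖ ^ M = ‖π₁‖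

/-- TRA: `E \ A` is dense in `E`. -/
def ST_TRA : Prop :=
  ∀ (p : ℕ) [Fact p.Prime] (A : Subfield ℂ_[p]), (A : Set ℂ_[p]).Countable →
    ∀ E : IntermediateField ℚ_[p] ℂ_[p], FiniteDimensional ℚ_[p] E →
      ∀ x ∈ E, ∀ δ : ℝ, 0 < δ → ∃ τ ∈ E, τ ∉ A ∧ ‖τ - x‖ < δ

/-- DER: the derivation `D`. -/
def ST_DER : Prop :=
  ∀ (p : ℕ) [Fact p.Prime] (E : IntermediateField ℚ_[p] ℂ_[p]) (π : ℂ_[p]) (f : ℕ), LF E π f →
    ‖(p : ℂ_[p])‖ ≤ ‖π‖ ^ 2 →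
    (∀ x ∈ E, ‖x‖ ≤ 1 → ‖x - x ^ (p ^ f)‖ ≤ ‖π‖ ∧ Dv π f x ∈ Fq p f) ∧
    (∀ x ∈ E, ∀ y ∈ E, ‖x‖ ≤ 1 → ‖y‖ ≤ 1 → Dv π f (x + y) = Dv π f x + Dv π f y) ∧
    (∀ x ∈ E, ∀ y ∈ E, ‖x‖ ≤ 1 → ‖y‖ ≤ 1 →
      Dv π f (x * y) = res x * Dv π f y + res y * Dv π f x) ∧
    Dv π f π = 1 ∧
    (∀ x ∈ E, ‖x‖ ≤ ‖π‖ ^ 2 → Dv π f x = 0) ∧
    (∀ x ∈ E, x ^ (p ^ f) = x → Dv π f x = 0) ∧
    (∀ (E₁ : IntermediateField ℚ_[p] ℂ_[p]) (π₁ : ℂ_[p]) (f₁ : ℕ), LF E₁ π₁ f₁ → f₁ ∣ f →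
      ‖π₁‖ ≤ ‖π‖ ^ 2 → ∀ x ∈ E₁, ‖x‖ ≤ 1 → Dv π f x = 0)

/-- RED: reduction of rational functions. -/
def ST_RED : Prop :=
  ∀ (p : ℕ) [Fact p.Prime] (A : Subfield ℂ_[p]), IsAlgClosed A →
    ∀ (E : IntermediateField ℚ_[p] ℂ_[p]) (π : ℂ_[p]) (f : ℕ), LF E π f → ∀ a ϖ : A,
      (a : ℂ_[p]) ∈ E → (ϖ : ℂ_[p]) ∈ E → ϖ ≠ 0 → ∀ h : RatFunc A, h ≠ 0 → Ov A E h →
      ∃ (s : ℤ) (P Q : Polynomial ℂ_[p]), Rdx E (π ^ s) h a ϖ P Q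

/-- ORD: properties of `ordv`. -/
def ST_ORD : Prop :=
  ∀ (p : ℕ) [Fact p.Prime] (A : Subfield ℂ_[p]),
    (∀ (v : A) (g h : RatFunc A), g ≠ 0 → h ≠ 0 → ordv A v (g * h) = ordv A v g + ordv A v h) ∧
    (∀ (v : A) (h : RatFunc A), h ≠ 0 → ordv A v h⁻¹ = - ordv A v h) ∧
    (∀ (v : A) (h : RatFunc A) (m : ℕ), h ≠ 0 → ordv A v (h ^ m) = m * ordv A v h) ∧
    (∀ h : RatFunc A, h ≠ 0 → {v : A | ordv A v h ≠ 0}.Finite) ∧
    (∀ (v : A) (P : Polynomial A), P ≠ 0 →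
      ordv A v (algebraMap (Polynomial A) (RatFunc A) P) = P.rootMultiplicity v)

/-- EVH: evaluation at a point outside `A` is a field embedding. -/
def ST_EVH : Prop :=
  ∀ (p : ℕ) [Fact p.Prime] (A : Subfield ℂ_[p]), IsAlgClosed A → ∀ τ : ℂ_[p], τ ∉ A →
    ∃ e : RatFunc A →+* ℂ_[p], (∀ c, e c = ev A τ c) ∧ e RatFunc.X = τ ∧
      (∀ a : A, e (RatFunc.C a) = a) ∧
      (∀ P : Polynomial A, e (algebraMap (Polynomial A) (RatFunc A) P) = P.eval₂ A.subtype τ) ∧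
      ∀ E : IntermediateField ℚ_[p] ℂ_[p], τ ∈ E → ∀ c, Ov A E c → e c ∈ E

/-- OVF: the rational functions over `A ∩ E` form a field. -/
def ST_OVF : Prop :=
  ∀ (p : ℕ) [Fact p.Prime] (A : Subfield ℂ_[p]) (E : IntermediateField ℚ_[p] ℂ_[p]),
    ∃ F : Subfield (RatFunc A), ∀ c, c ∈ F ↔ Ov A E c

/-- NRV: absolute values of rational functions near a point. -/
def ST_NRV : Prop :=
  ∀ (p : ℕ) [Fact p.Prime] (A : Subfield ℂ_[p]), IsAlgClosed A → ∀ h : RatFunc A, h ≠ 0 →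
    (∀ v : A, ∃ ε Cc : ℝ, 0 < ε ∧ 0 < Cc ∧ ∀ τ : ℂ_[p], τ ∉ A → ‖τ - v‖ < ε →
      ‖ev A τ h‖ = Cc * ‖τ - v‖ ^ (ordv A v h)) ∧
    (∀ v : ℂ_[p], v ∉ A → ∃ ε Cc : ℝ, 0 < ε ∧ 0 < Cc ∧ ∀ τ : ℂ_[p], τ ∉ A → ‖τ - v‖ < ε →
      ‖ev A τ h‖ = Cc)

/-- DIR: residual multiplicities of the reduction are sums of orders. -/
def ST_DIR : Prop :=
  ∀ (p : ℕ) [Fact p.Prime] (A : Subfield ℂ_[p]), IsAlgClosed A → (A : Set ℂ_[p]).Countable →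
    ∀ (E : IntermediateField ℚ_[p] ℂ_[p]) (κ : ℂ_[p]) (a ϖ : A) (h : RatFunc A)
      (P Q : Polynomial ℂ_[p]), ϖ ≠ 0 → h ≠ 0 → Rdx E κ h a ϖ P Q → ∀ w : RF p,
      (∀ v : A, ‖((v : ℂ_[p]) - (a : ℂ_[p])) / (ϖ : ℂ_[p])‖ ≤ 1 →
        res (((v : ℂ_[p]) - (a : ℂ_[p])) / (ϖ : ℂ_[p])) = w → ordv A v h = 0) →
      (rd P).rootMultiplicity w = (rd Q).rootMultiplicity w

/-- FCT: rational functions over `A ∩ E` all of whose orders are divisible by `m`. -/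
def ST_FCT : Prop :=
  ∀ (p : ℕ) [Fact p.Prime] (A : Subfield ℂ_[p]), IsAlgClosed A →
    ∀ (E : IntermediateField ℚ_[p] ℂ_[p]) (m : ℕ), 0 < m → ∀ h : RatFunc A, h ≠ 0 → Ov A E h →
      (∀ v : A, (m : ℤ) ∣ ordv A v h) →
      ∃ (b : A) (z : RatFunc A), (b : ℂ_[p]) ∈ E ∧ b ≠ 0 ∧ z ≠ 0 ∧ Ov A E z ∧
        h = RatFunc.C b * z ^ m

/-- RDU: uniqueness and existence of reductions. -/
def ST_RDU : Prop :=
  ∀ (p : ℕ) [Fact p.Prime] (χ : Polynomial ℂ_[p]),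
    (χ ≠ 0 → ∃ φ, Red χ φ ∧ φ.natDegree ≤ χ.natDegree) ∧
    (∀ φ φ', Red χ φ → Red χ φ' → ∃ s : RF p, s ≠ 0 ∧ φ' = C s * φ) ∧
    (∀ (φ : Polynomial (RF p)) (s : RF p), s ≠ 0 → Red χ φ → Red χ (C s * φ)) ∧
    (∀ (φ : Polynomial (RF p)) (r : ℂ_[p]), r ≠ 0 → Red χ φ → Red (C r * χ) φ) ∧
    (∀ (φ : Polynomial (RF p)) (x y : ℂ_[p]), Red χ φ → ‖x‖ ≤ 1 → ‖y‖ ≤ 1 → φ.eval (res x) ≠ 0 →
      χ.eval x ≠ 0 ∧ ‖χ.eval y‖ ≤ ‖χ.eval x‖ ∧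
      res (χ.eval y / χ.eval x) = φ.eval (res y) / φ.eval (res x))

/-- PWR: elements of `E` which are `m`-th powers for all `m`. -/
def ST_PWR : Prop :=
  ∀ (p : ℕ) [Fact p.Prime] (E : IntermediateField ℚ_[p] ℂ_[p]), FiniteDimensional ℚ_[p] E →
    (∀ x ∈ E, x ≠ 0 → (∀ m : ℕ, 0 < m → ∃ y ∈ E, x = y ^ m) → x = 1) ∧
    (∀ δ : ℝ, 0 < δ → ∃ r₀ : ℕ, ∀ r : ℕ, r₀ ≤ r → ∀ x ∈ E, ‖x‖ = 1 → ‖x ^ (r.factorial) - 1‖ < δ)

/-- NPW: leading and lowest coefficients of reductions at the two ends of an annulus without zeros. -/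
def ST_NPW : Prop :=
  ∀ (p : ℕ) [Fact p.Prime] (P : Polynomial ℂ_[p]) (r₁ r₂ : ℝ), P ≠ 0 → 0 < r₁ → r₁ < r₂ →
    (∀ x : ℂ_[p], P.eval x = 0 → ‖x‖ ≤ r₁ ∨ r₂ ≤ ‖x‖) →
    ∃ k : ℕ, P.coeff k ≠ 0 ∧ (∀ j, ‖P.coeff j‖ * r₁ ^ j ≤ ‖P.coeff k‖ * r₁ ^ k) ∧
      (∀ j, k < j → ‖P.coeff j‖ * r₁ ^ j < ‖P.coeff k‖ * r₁ ^ k) ∧
      (∀ j, ‖P.coeff j‖ * r₂ ^ j ≤ ‖P.coeff k‖ * r₂ ^ k) ∧
      (∀ j, j < k → ‖P.coeff j‖ * r₂ ^ j < ‖P.coeff k‖ * r₂ ^ k)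

end Pool.Agent.Helper60.FF
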