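import Pool.Agent.Helper60.FF.DefsB

/-!
# The interface between Part I (sections), Part II (p-adic analysis) and Part III (transfer)
-/

set_option autoImplicit false

namespace Pool.Agent.Helper60.FF

open Polynomial

/-- the numerical conditions on `p` and `n` -/
structure PP (p n : ℕ) : Prop where
  prime : p.Prime
  npos : 0 < n
  one : 4 * n + 2 ∣ p - 1
  big : 4 * n ^ 2 + 12 * n + 6 < p

/-- the `p`-adic data attached to a section over a field `k` with `[k : k₀(u)] = n` and an element `t`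
of the fixed field: `χ τ` is the polynomial with roots the finite values of `t` over `u = τ`, `H m c` is the
norm of the Kummer class mod `m` of `t - c` -/
structure KD (p : ℕ) [hp : Fact p.Prime] (n : ℕ) where
  A : Subfield ℂ_[p]
  cnt : (A : Set ℂ_[p]).Countable
  alg : ∀ a ∈ A, IsAlgebraic ℚ_[p] a
  acl : IsAlgClosed A
  E₀ : IntermediateField ℚ_[p] ℂ_[p]
  fin₀ : FiniteDimensional ℚ_[p] E₀
  χ : ℂ_[p] → Polynomial ℂ_[p]
  H : ℕ → RatFunc A → RatFunc A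
  χ0 : ∀ τ : ℂ_[p], IsAlgebraic ℚ_[p] τ → τ ∉ A → χ τ ≠ 0 ∧ (χ τ).natDegree ≤ n
  χE : ∀ E : IntermediateField ℚ_[p] ℂ_[p], FiniteDimensional ℚ_[p] E → E₀ ≤ E → ∀ τ ∈ E, τ ∉ A →
    ∀ j, (χ τ).coeff j ∈ E
  H0 : ∀ m c, 0 < m → H m c ≠ 0
  Hdef : ∀ E : IntermediateField ℚ_[p] ℂ_[p], FiniteDimensional ℚ_[p] E → E₀ ≤ E → ∀ m c, 0 < m →
    Ov A E c → Ov A E (H m c)
  cls : ∀ m m' c, 0 < m → 0 < m' → ∃ g : RatFunc A, H (m * m') c = H m c * g ^ m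
  kum : ∀ E : IntermediateField ℚ_[p] ℂ_[p], FiniteDimensional ℚ_[p] E → E₀ ≤ E →
    ∀ c c' : RatFunc A, Ov A E c → Ov A E c' → ∀ τ ∈ E, τ ∉ A → ∀ m : ℕ, 0 < m →
      (χ τ).eval (ev A τ c) ≠ 0 → (χ τ).eval (ev A τ c') ≠ 0 →
      ∃ w ∈ E, w ≠ 0 ∧ (χ τ).eval (ev A τ c) * ev A τ (H m c') =
        (χ τ).eval (ev A τ c') * ev A τ (H m c) * w ^ m

/-- MAIN (output of Part II): `χ τ` is proportional to the specialization of a polynomial `ρ` over `A(u)` -/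
def ST_MAIN : Prop :=
  ∀ (p n : ℕ) [Fact p.Prime], PP p n → ∀ K : KD p n,
    ∃ ρ : Polynomial (RatFunc K.A), ρ ≠ 0 ∧ ρ.natDegree ≤ n ∧
      ∀ τ : ℂ_[p], IsAlgebraic ℚ_[p] τ → τ ∉ K.A →
        ∃ r : ℂ_[p], r ≠ 0 ∧ ∀ j, (K.χ τ).coeff j = r * ev K.A τ (ρ.coeff j)

end Pool.Agent.Helper60.FF
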