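import Pool.Agent.Helper60.FF.StmtsC

/-!
# General lemmas for Part C
-/

set_option autoImplicit false

namespace Pool.Agent.Helper60.FF

open Polynomial

variable {p : ℕ} [hp : Fact p.Prime]

/-! ## finite extensions, naturals -/

/-- the finite extension generated by finitely many algebraic elements -/
theorem lib_ext (E : IntermediateField ℚ_[p] ℂ_[p]) (hE : FiniteDimensional ℚ_[p] E) (S : Set ℂ_[p])
    (hS : S.Finite) (hA : ∀ x ∈ S, IsAlgebraic ℚ_[p] x) :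
    ∃ E' : IntermediateField ℚ_[p] ℂ_[p], FiniteDimensional ℚ_[p] E' ∧ E ≤ E' ∧ (∀ x ∈ S, x ∈ E') ∧
      ∀ E'' : IntermediateField ℚ_[p] ℂ_[p], E ≤ E'' → (∀ x ∈ S, x ∈ E'') → E' ≤ E'' := by
  have h1 : FiniteDimensional ℚ_[p] (IntermediateField.adjoin ℚ_[p] S) := by
    have : Finite S := hS
    exact IntermediateField.finiteDimensional_adjoin fun x hx => (hA x hx).isIntegral
  refine ⟨E ⊔ IntermediateField.adjoin ℚ_[p] S, ?_, le_sup_left, ?_, ?_⟩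
  · exact IntermediateField.finiteDimensional_sup _ _
  · intro x hx
    exact (le_sup_right : _ ≤ E ⊔ IntermediateField.adjoin ℚ_[p] S) (IntermediateField.subset_adjoin _ _ hx)
  · intro E'' h h'
    exact sup_le h (IntermediateField.adjoin_le_iff.2 h')

theorem lib_alg {E : IntermediateField ℚ_[p] ℂ_[p]} (hE : FiniteDimensional ℚ_[p] E) {x : ℂ_[p]} (hx : x ∈ E) :
    IsAlgebraic ℚ_[p] x := by
  have h := Algebra.IsAlgebraic.isAlgebraic (R := ℚ_[p]) (⟨x, hx⟩ : E)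
  exact h.algebraMap (A := ℂ_[p])

/-- the minimal finite extension containing two more elements -/
theorem lib_ext2 (E : IntermediateField ℚ_[p] ℂ_[p]) (hE : FiniteDimensional ℚ_[p] E) (x y : ℂ_[p])
    (hx : IsAlgebraic ℚ_[p] x) (hy : IsAlgebraic ℚ_[p] y) :
    ∃ E' : IntermediateField ℚ_[p] ℂ_[p], FiniteDimensional ℚ_[p] E' ∧ E ≤ E' ∧ x ∈ E' ∧ y ∈ E' ∧
      ∀ E'' : IntermediateField ℚ_[p] ℂ_[p], E ≤ E'' → x ∈ E'' → y ∈ E'' → E' ≤ E'' := by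
  obtain ⟨E', h1, h2, h3, h4⟩ := lib_ext E hE {x, y} (Set.toFinite _) (by
    intro z hz
    rcases hz with rfl | hz
    · exact hx
    · rw [Set.mem_singleton_iff] at hz
      rw [hz]
      exact hy)
  refine ⟨E', h1, h2, h3 x (Or.inl rfl), h3 y (Or.inr rfl), ?_⟩
  intro E'' ha hb hc
  refine h4 E'' ha ?_
  intro z hz
  rcases hz with rfl | hz
  · exact hb
  · rw [Set.mem_singleton_iff] at hz
    rw [hz]
    exact hc

/-- the minimal finite extension containing one more element -/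
theorem lib_ext1 (E : IntermediateField ℚ_[p] ℂ_[p]) (hE : FiniteDimensional ℚ_[p] E) (x : ℂ_[p])
    (hx : IsAlgebraic ℚ_[p] x) :
    ∃ E' : IntermediateField ℚ_[p] ℂ_[p], FiniteDimensional ℚ_[p] E' ∧ E ≤ E' ∧ x ∈ E' := by
  obtain ⟨E', h1, h2, h3, h4, h5⟩ := lib_ext2 E hE x x hx hx
  exact ⟨E', h1, h2, h3⟩

/-- two finite extensions are contained in a finite extension -/
theorem lib_sup (E E' : IntermediateField ℚ_[p] ℂ_[p]) (hE : FiniteDimensional ℚ_[p] E)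
    (hE' : FiniteDimensional ℚ_[p] E') :
    ∃ E'' : IntermediateField ℚ_[p] ℂ_[p], FiniteDimensional ℚ_[p] E'' ∧ E ≤ E'' ∧ E' ≤ E'' :=
  ⟨E ⊔ E', IntermediateField.finiteDimensional_sup _ _, le_sup_left, le_sup_right⟩

theorem lib_nat (i : ℕ) : ‖((i : ℕ) : ℂ_[p])‖ ≤ 1 := (mem_OO _).1 (natCast_mem (OO p) i)

theorem lib_nat_inj {i j : ℕ} (hi : i < p) (hj : j < p) (h : (i : RF p) = (j : RF p)) : i = j :=
  CharP.natCast_injOn_Iio (RF p) p hi hj h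

theorem lib_nat_ne {i : ℕ} (hi : i < p) (h0 : i ≠ 0) : (i : RF p) ≠ 0 := by
  intro h
  apply h0
  refine lib_nat_inj hi hp.out.pos ?_
  rw [h, Nat.cast_zero]

/-- a nonzero difference of two small naturals is a unit -/
theorem lib_nat_sub {i j : ℕ} (hi : i < p) (hj : j < p) (h : i ≠ j) : ‖(i : ℂ_[p]) - (j : ℂ_[p])‖ = 1 := by
  have h1 : ‖(i : ℂ_[p]) - (j : ℂ_[p])‖ ≤ 1 := (OO p).sub_mem (lib_nat i) (lib_nat j)
  rw [norm_eq_one_iff h1, res_sub (lib_nat i) (lib_nat j), res_natCast, res_natCast, sub_ne_zero]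
  intro h2
  exact h (lib_nat_inj hi hj h2)

/-- a nonzero polynomial of degree `≤ n` does not vanish at some natural number `≤ n` (`n < p`) -/
theorem lib_ex_nat {n : ℕ} (hn : n < p) (φ : Polynomial (RF p)) (h0 : φ ≠ 0) (hd : φ.natDegree ≤ n) :
    ∃ i : ℕ, i ≤ n ∧ φ.eval (i : RF p) ≠ 0 := by
  classical
  by_contra h
  push Not at h
  apply h0
  refine Polynomial.eq_zero_of_natDegree_lt_card_of_eval_eq_zero' φ ((Finset.range (n + 1)).image (fun i : ℕ => (i : RF p))) ?_ ?_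
  · intro x hx
    rw [Finset.mem_image] at hx
    obtain ⟨i, hi, rfl⟩ := hx
    exact h i (by rw [Finset.mem_range] at hi; omega)
  · rw [Finset.card_image_of_injOn, Finset.card_range]
    · omega
    · intro i hi j hj hij
      rw [Finset.coe_range, Set.mem_Iio] at hi hj
      exact lib_nat_inj (by omega) (by omega) hij

/-! ## norms in `E` -/

theorem lib_le_pi {E : IntermediateField ℚ_[p] ℂ_[p]} {π : ℂ_[p]} {f : ℕ} (h : LF E π f) {x : ℂ_[p]}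
    (hx : x ∈ E) (h1 : ‖x‖ < 1) : ‖x‖ ≤ ‖π‖ := by
  by_cases h0 : x = 0
  · rw [h0, norm_zero]
    exact norm_nonneg _
  · obtain ⟨j, hj⟩ := h.val x hx h0
    have hj1 : 1 ≤ j := by
      by_contra hj0
      have : 1 ≤ ‖π‖ ^ j := one_le_zpow_of_nonpos₀ h.pos h.lt.le (by omega)
      rw [← hj] at this
      exact absurd h1 (not_lt.2 this)
    rw [hj]
    calc ‖π‖ ^ j ≤ ‖π‖ ^ (1 : ℤ) := zpow_le_zpow_right_of_le_one₀ h.pos h.lt.le hj1
      _ = ‖π‖ := zpow_one _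

/-- `x = π ^ j x₀` with `x₀` a unit -/
theorem lib_unit {E : IntermediateField ℚ_[p] ℂ_[p]} {π : ℂ_[p]} {f : ℕ} (h : LF E π f) {x : ℂ_[p]}
    (hx : x ∈ E) (h0 : x ≠ 0) : ∃ (j : ℤ) (x₀ : ℂ_[p]), x₀ ∈ E ∧ ‖x₀‖ = 1 ∧ x = π ^ j * x₀ ∧
      ‖x‖ = ‖π‖ ^ j := by
  obtain ⟨j, hj⟩ := h.val x hx h0
  have hπ : π ≠ 0 := norm_pos_iff.1 h.pos
  refine ⟨j, x / π ^ j, div_mem hx (zpow_mem h.mem j), ?_, ?_, hj⟩
  · rw [norm_div, norm_zpow, hj, div_self]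
    exact zpow_ne_zero _ h.pos.ne'
  · rw [mul_div_cancel₀]
    exact zpow_ne_zero _ hπ

theorem lib_zpow_inj {x : ℝ} (h0 : 0 < x) (h1 : x < 1) {i j : ℤ} (h : x ^ i = x ^ j) : i = j :=
  zpow_right_injective₀ h0 h1.ne h

/-! ## residues of values of polynomials -/

theorem lib_rd_eval {P : Polynomial ℂ_[p]} (hP : ∀ j, ‖P.coeff j‖ ≤ 1) {x : ℂ_[p]} (hx : ‖x‖ ≤ 1) :
    ‖P.eval x‖ ≤ 1 ∧ res (P.eval x) = (rd P).eval (res x) := by
  have key : ∀ s : Finset ℕ, ‖∑ j ∈ s, P.coeff j * x ^ j‖ ≤ 1 ∧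
      res (∑ j ∈ s, P.coeff j * x ^ j) = ∑ j ∈ s, res (P.coeff j) * res x ^ j := by
    intro s
    classical
    induction s using Finset.induction_on with
    | empty => simp [res_zero]
    | insert a s ha ih =>
      rw [Finset.sum_insert ha, Finset.sum_insert ha]
      have hxa : ‖x ^ a‖ ≤ 1 := by
        rw [norm_pow]
        exact pow_le_one₀ (norm_nonneg _) hx
      have h1 : ‖P.coeff a * x ^ a‖ ≤ 1 := (OO p).mul_mem _ _ (hP a) hxa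
      refine ⟨(OO p).add_mem _ _ h1 ih.1, ?_⟩
      rw [res_add h1 ih.1, res_mul (hP a) hxa, res_pow hx, ih.2]
  have hd : (rd P).natDegree ≤ P.natDegree := by
    rw [natDegree_le_iff_coeff_eq_zero]
    intro N hN
    rw [coeff_rd, coeff_eq_zero_of_natDegree_lt hN, res_zero]
  obtain ⟨h1, h2⟩ := key (Finset.range (P.natDegree + 1))
  rw [← eval_eq_sum_range] at h1 h2
  refine ⟨h1, ?_⟩
  rw [h2, eval_eq_sum_range' (Nat.lt_succ_of_le hd)]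
  refine Finset.sum_congr rfl ?_
  intro j _
  rw [coeff_rd]

theorem lib_res_div {x y : ℂ_[p]} (hx : ‖x‖ ≤ 1) (hy : ‖y‖ = 1) : ‖x / y‖ ≤ 1 ∧ res (x / y) = res x / res y := by
  have h1 : ‖x / y‖ ≤ 1 := by
    rw [norm_div, hy, div_one]
    exact hx
  refine ⟨h1, ?_⟩
  have hy0 : res y ≠ 0 := (norm_eq_one_iff hy.le).1 hy
  have hy1 : y ≠ 0 := by
    intro h
    rw [h, norm_zero] at hy
    exact zero_ne_one hy
  rw [eq_div_iff hy0, ← res_mul h1 hy.le, div_mul_cancel₀ _ hy1]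

theorem lib_res_inv {x : ℂ_[p]} (hx : ‖x‖ = 1) : res x⁻¹ = (res x)⁻¹ := by
  have h := (lib_res_div (p := p) (x := 1) (y := x) (by rw [norm_one]) hx).2
  rw [one_div, res_one, one_div] at h
  exact h

theorem lib_res_zpow {x : ℂ_[p]} (hx : ‖x‖ = 1) (k : ℤ) : res (x ^ k) = res x ^ k := by
  cases k with
  | ofNat k => rw [Int.ofNat_eq_natCast, zpow_natCast, zpow_natCast, res_pow hx.le]
  | negSucc k =>
    rw [zpow_negSucc, zpow_negSucc, ← res_pow hx.le]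
    apply lib_res_inv
    rw [norm_pow, hx, one_pow]

/-! ## rational functions over `A ∩ E` -/

section

variable {A : Subfield ℂ_[p]} {E : IntermediateField ℚ_[p] ℂ_[p]}

theorem lib_ov_mono {E' : IntermediateField ℚ_[p] ℂ_[p]} (h : E ≤ E') {c : RatFunc A} (hc : Ov A E c) :
    Ov A E' c := by
  obtain ⟨P, Q, hQ, h1, h2, h3⟩ := hc
  exact ⟨P, Q, hQ, fun j => h (h1 j), fun j => h (h2 j), h3⟩

theorem lib_ov_poly {P : Polynomial A} (hP : ∀ j, ((P.coeff j : A) : ℂ_[p]) ∈ E) :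
    Ov A E (algebraMap (Polynomial A) (RatFunc A) P) := by
  refine ⟨P, 1, one_ne_zero, hP, ?_, ?_⟩
  · intro j
    rw [coeff_one]
    split_ifs
    · exact one_mem E
    · exact zero_mem E
  · rw [map_one, mul_one]

theorem lib_ov_C {a : A} (ha : (a : ℂ_[p]) ∈ E) : Ov A E (RatFunc.C a) := by
  have h := lib_ov_poly (A := A) (E := E) (P := C a) (by
    intro j
    rw [coeff_C]
    split_ifs
    · exact ha
    · exact zero_mem E)
  rw [RatFunc.algebraMap_C] at h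
  exact h

theorem lib_natCast (i : ℕ) : ((i : ℕ) : RatFunc A) = RatFunc.C ((i : ℕ) : A) := (map_natCast RatFunc.C i).symm

theorem lib_ov_nat (i : ℕ) : Ov A E ((i : ℕ) : RatFunc A) := by
  rw [lib_natCast]
  refine lib_ov_C ?_
  have : (((i : ℕ) : A) : ℂ_[p]) = (i : ℂ_[p]) := by norm_cast
  rw [this]
  exact natCast_mem E i

theorem lib_ov_X : Ov A E RatFunc.X := by
  have h := lib_ov_poly (A := A) (E := E) (P := X) (by
    intro j
    rw [coeff_X]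
    split_ifs
    · exact one_mem E
    · exact zero_mem E)
  rw [RatFunc.algebraMap_X] at h
  exact h

theorem lib_ov_add (hO : ST_OVF) {c d : RatFunc A} (hc : Ov A E c) (hd : Ov A E d) : Ov A E (c + d) := by
  obtain ⟨F, hF⟩ := hO p A E
  rw [← hF] at hc hd ⊢
  exact add_mem hc hd

theorem lib_ov_sub (hO : ST_OVF) {c d : RatFunc A} (hc : Ov A E c) (hd : Ov A E d) : Ov A E (c - d) := by
  obtain ⟨F, hF⟩ := hO p A E
  rw [← hF] at hc hd ⊢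
  exact sub_mem hc hd

theorem lib_ov_mul (hO : ST_OVF) {c d : RatFunc A} (hc : Ov A E c) (hd : Ov A E d) : Ov A E (c * d) := by
  obtain ⟨F, hF⟩ := hO p A E
  rw [← hF] at hc hd ⊢
  exact mul_mem hc hd

theorem lib_ov_div (hO : ST_OVF) {c d : RatFunc A} (hc : Ov A E c) (hd : Ov A E d) : Ov A E (c / d) := by
  obtain ⟨F, hF⟩ := hO p A E
  rw [← hF] at hc hd ⊢
  exact div_mem hc hd

theorem lib_ov_inv (hO : ST_OVF) {c : RatFunc A} (hc : Ov A E c) : Ov A E c⁻¹ := by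
  obtain ⟨F, hF⟩ := hO p A E
  rw [← hF] at hc ⊢
  exact inv_mem hc

theorem lib_ov_pow (hO : ST_OVF) {c : RatFunc A} (hc : Ov A E c) (m : ℕ) : Ov A E (c ^ m) := by
  obtain ⟨F, hF⟩ := hO p A E
  rw [← hF] at hc ⊢
  exact pow_mem hc m

theorem lib_ov_yy (hO : ST_OVF) {a ϖ : A} (ha : (a : ℂ_[p]) ∈ E) (hϖ : (ϖ : ℂ_[p]) ∈ E) : Ov A E (yy A a ϖ) :=
  lib_ov_div hO (lib_ov_sub hO lib_ov_X (lib_ov_C ha)) (lib_ov_C hϖ)

theorem lib_ov_cc (hO : ST_OVF) {a ϖ : A} (ha : (a : ℂ_[p]) ∈ E) (hϖ : (ϖ : ℂ_[p]) ∈ E) (b : Bool) (i : ℕ) :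
    Ov A E (cc A a ϖ b i) := by
  unfold cc
  refine lib_ov_add hO ?_ (lib_ov_nat i)
  split_ifs
  · exact lib_ov_yy hO ha hϖ
  · have h := lib_ov_nat (A := A) (E := E) 0
    rw [Nat.cast_zero] at h
    exact h

end

/-! ## evaluation -/

section

variable {A : Subfield ℂ_[p]} (hA : IsAlgClosed A) (hV : ST_EVH) {τ : ℂ_[p]} (hτ : τ ∉ A)

include hA hV hτ

theorem lib_ev_mul (c d : RatFunc A) : ev A τ (c * d) = ev A τ c * ev A τ d := by
  obtain ⟨e, h1, -⟩ := hV p A hA τ hτ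
  rw [← h1, ← h1, ← h1, map_mul]

theorem lib_ev_div (c d : RatFunc A) : ev A τ (c / d) = ev A τ c / ev A τ d := by
  obtain ⟨e, h1, -⟩ := hV p A hA τ hτ
  rw [← h1, ← h1, ← h1, map_div₀]

theorem lib_ev_inv (c : RatFunc A) : ev A τ c⁻¹ = (ev A τ c)⁻¹ := by
  obtain ⟨e, h1, -⟩ := hV p A hA τ hτ
  rw [← h1, ← h1, map_inv₀]

theorem lib_ev_add (c d : RatFunc A) : ev A τ (c + d) = ev A τ c + ev A τ d := by
  obtain ⟨e, h1, -⟩ := hV p A hA τ hτ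
  rw [← h1, ← h1, ← h1, map_add]

theorem lib_ev_sub (c d : RatFunc A) : ev A τ (c - d) = ev A τ c - ev A τ d := by
  obtain ⟨e, h1, -⟩ := hV p A hA τ hτ
  rw [← h1, ← h1, ← h1, map_sub]

theorem lib_ev_pow (c : RatFunc A) (m : ℕ) : ev A τ (c ^ m) = ev A τ c ^ m := by
  obtain ⟨e, h1, -⟩ := hV p A hA τ hτ
  rw [← h1, ← h1, map_pow]

theorem lib_ev_C (a : A) : ev A τ (RatFunc.C a) = a := by
  obtain ⟨e, h1, h2, h3, -⟩ := hV p A hA τ hτ
  rw [← h1, h3]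

theorem lib_ev_X : ev A τ (RatFunc.X : RatFunc A) = τ := by
  obtain ⟨e, h1, h2, -⟩ := hV p A hA τ hτ
  rw [← h1, h2]

theorem lib_ev_nat (i : ℕ) : ev A τ ((i : ℕ) : RatFunc A) = i := by
  obtain ⟨e, h1, -⟩ := hV p A hA τ hτ
  rw [← h1, map_natCast]

theorem lib_ev_zero : ev A τ (0 : RatFunc A) = 0 := by
  obtain ⟨e, h1, -⟩ := hV p A hA τ hτ
  rw [← h1, map_zero]

theorem lib_ev_ne {c : RatFunc A} (hc : c ≠ 0) : ev A τ c ≠ 0 := by
  obtain ⟨e, h1, -⟩ := hV p A hA τ hτ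
  rw [← h1]
  exact (map_ne_zero e).2 hc

theorem lib_ev_poly (P : Polynomial A) :
    ev A τ (algebraMap (Polynomial A) (RatFunc A) P) = P.eval₂ A.subtype τ := by
  obtain ⟨e, h1, h2, h3, h4, -⟩ := hV p A hA τ hτ
  rw [← h1, h4]

theorem lib_ev_mem {E : IntermediateField ℚ_[p] ℂ_[p]} (hE : τ ∈ E) {c : RatFunc A} (hc : Ov A E c) :
    ev A τ c ∈ E := by
  obtain ⟨e, h1, h2, h3, h4, h5⟩ := hV p A hA τ hτ
  rw [← h1]
  exact h5 E hE c hc

theorem lib_ev_yy (a ϖ : A) : ev A τ (yy A a ϖ) = (τ - (a : ℂ_[p])) / (ϖ : ℂ_[p]) := by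
  unfold yy
  rw [lib_ev_div hA hV hτ, lib_ev_sub hA hV hτ, lib_ev_X hA hV hτ, lib_ev_C hA hV hτ, lib_ev_C hA hV hτ]

theorem lib_ev_cc (a ϖ : A) (b : Bool) (i : ℕ) : ev A τ (cc A a ϖ b i) =
    (if b = true then (τ - (a : ℂ_[p])) / (ϖ : ℂ_[p]) else 0) + i := by
  unfold cc
  rw [lib_ev_add hA hV hτ, lib_ev_nat hA hV hτ]
  split_ifs
  · rw [lib_ev_yy hA hV hτ]
  · rw [lib_ev_zero hA hV hτ]

end

/-! ## the Kummer relation -/

theorem lib_kum (hV : ST_EVH) {n : ℕ} (K : KD p n) {E : IntermediateField ℚ_[p] ℂ_[p]}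
    (hE : FiniteDimensional ℚ_[p] E) (hE₀ : K.E₀ ≤ E) {c c' : RatFunc K.A} (hc : Ov K.A E c)
    (hc' : Ov K.A E c') {τ : ℂ_[p]} (hτ : τ ∈ E) (hτA : τ ∉ K.A) {m : ℕ} (hm : 0 < m)
    (h : (K.χ τ).eval (ev K.A τ c) ≠ 0) (h' : (K.χ τ).eval (ev K.A τ c') ≠ 0) :
    ∃ w ∈ E, w ≠ 0 ∧ (K.χ τ).eval (ev K.A τ c) / (K.χ τ).eval (ev K.A τ c') =
      ev K.A τ (K.H m c / K.H m c') * w ^ m := by
  obtain ⟨w, hw, hw0, hw1⟩ := K.kum E hE hE₀ c c' hc hc' τ hτ hτA m hm h h'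
  refine ⟨w, hw, hw0, ?_⟩
  rw [lib_ev_div K.acl hV hτA, div_eq_iff h', div_mul_eq_mul_div, div_mul_eq_mul_div,
    eq_div_iff (lib_ev_ne K.acl hV hτA (K.H0 m c' hm)), hw1]
  ring

/-- the Kummer relation for constants -/
theorem lib_kumC (hV : ST_EVH) {n : ℕ} (K : KD p n) {E : IntermediateField ℚ_[p] ℂ_[p]}
    (hE : FiniteDimensional ℚ_[p] E) (hE₀ : K.E₀ ≤ E) {c c' : K.A} (hc : (c : ℂ_[p]) ∈ E)
    (hc' : (c' : ℂ_[p]) ∈ E) {τ : ℂ_[p]} (hτ : τ ∈ E) (hτA : τ ∉ K.A) {m : ℕ} (hm : 0 < m)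
    (h : (K.χ τ).eval (c : ℂ_[p]) ≠ 0) (h' : (K.χ τ).eval (c' : ℂ_[p]) ≠ 0) :
    ∃ w ∈ E, w ≠ 0 ∧ (K.χ τ).eval (c : ℂ_[p]) / (K.χ τ).eval (c' : ℂ_[p]) =
      ev K.A τ (K.H m (RatFunc.C c) / K.H m (RatFunc.C c')) * w ^ m := by
  have h1 := lib_kum hV K hE hE₀ (lib_ov_C hc) (lib_ov_C hc') hτ hτA hm
    (by rw [lib_ev_C K.acl hV hτA]; exact h) (by rw [lib_ev_C K.acl hV hτA]; exact h')
  rw [lib_ev_C K.acl hV hτA, lib_ev_C K.acl hV hτA] at h1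
  exact h1

/-- the Kummer relation for natural numbers -/
theorem lib_kumN (hV : ST_EVH) {n : ℕ} (K : KD p n) {E : IntermediateField ℚ_[p] ℂ_[p]}
    (hE : FiniteDimensional ℚ_[p] E) (hE₀ : K.E₀ ≤ E) (i j : ℕ) {τ : ℂ_[p]} (hτ : τ ∈ E)
    (hτA : τ ∉ K.A) {m : ℕ} (hm : 0 < m)
    (h : (K.χ τ).eval (i : ℂ_[p]) ≠ 0) (h' : (K.χ τ).eval (j : ℂ_[p]) ≠ 0) :
    ∃ w ∈ E, w ≠ 0 ∧ (K.χ τ).eval (i : ℂ_[p]) / (K.χ τ).eval (j : ℂ_[p]) =
      ev K.A τ (K.H m ((i : ℕ) : RatFunc K.A) / K.H m ((j : ℕ) : RatFunc K.A)) * w ^ m := by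
  have h1 := lib_kum hV K hE hE₀ (lib_ov_nat i) (lib_ov_nat j) hτ hτA hm
    (by rw [lib_ev_nat K.acl hV hτA]; exact h) (by rw [lib_ev_nat K.acl hV hτA]; exact h')
  rw [lib_ev_nat K.acl hV hτA, lib_ev_nat K.acl hV hτA] at h1
  exact h1

/-! ## values at a residue disc from a reduction -/

theorem lib_rdx {A : Subfield ℂ_[p]} {E : IntermediateField ℚ_[p] ℂ_[p]} {κ : ℂ_[p]} {h : RatFunc A}
    {a ϖ : ℂ_[p]} {P Q : Polynomial ℂ_[p]} (hR : Rdx E κ h a ϖ P Q) {τ : ℂ_[p]} (hτ : τ ∉ A)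
    (hy : ‖(τ - a) / ϖ‖ ≤ 1) (hP : (rd P).eval (res ((τ - a) / ϖ)) ≠ 0)
    (hQ : (rd Q).eval (res ((τ - a) / ϖ)) ≠ 0) :
    ∃ u : ℂ_[p], ‖u‖ = 1 ∧ res u = (rd P).eval (res ((τ - a) / ϖ)) / (rd Q).eval (res ((τ - a) / ϖ)) ∧
      ev A τ h = κ * u ∧ u = P.eval ((τ - a) / ϖ) / Q.eval ((τ - a) / ϖ) := by
  obtain ⟨h1, h2, h3⟩ := hR.eq τ hτ
  obtain ⟨hP1, hP2⟩ := lib_rd_eval (P := P) (fun j => (hR.cP j).2) hy
  obtain ⟨hQ1, hQ2⟩ := lib_rd_eval (P := Q) (fun j => (hR.cQ j).2) hy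
  have hP3 : ‖P.eval ((τ - a) / ϖ)‖ = 1 := (norm_eq_one_iff hP1).2 (by rw [hP2]; exact hP)
  have hQ3 : ‖Q.eval ((τ - a) / ϖ)‖ = 1 := (norm_eq_one_iff hQ1).2 (by rw [hQ2]; exact hQ)
  refine ⟨P.eval ((τ - a) / ϖ) / Q.eval ((τ - a) / ϖ), ?_, ?_, ?_, rfl⟩
  · rw [norm_div, hP3, hQ3, div_one]
  · rw [(lib_res_div hP1 hQ3).2, hP2, hQ2]
  · rw [← mul_div_assoc, ← h3, mul_div_cancel_right₀ _ h2]

/-! ## TP, CT -/

theorem lib_CT_ne {n : ℕ} {K : KD p n} {a ϖ : ℂ_[p]} {φ : Polynomial (RF p)} (h : CT K a ϖ φ) :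
    φ ≠ 0 ∧ φ.natDegree ≤ n := by
  obtain ⟨h1, h2, -⟩ := h
  refine ⟨?_, ?_⟩
  · rintro rfl
    exact h1 (by rw [Polynomial.map_zero])
  · rw [natDegree_map_eq_of_injective C_injective] at h2
    exact h2

theorem lib_sp_map (w : RF p) (φ : Polynomial (RF p)) : sp w (φ.map C) = φ := by
  unfold sp
  rw [Polynomial.map_map]
  have : (evalRingHom w).comp C = RingHom.id (RF p) := by
    ext x
    simp
  rw [this, Polynomial.map_id]

theorem lib_sp_eval (w : RF p) (T : Polynomial (Polynomial (RF p))) (c : RF p) :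
    (sp w T).eval c = (T.eval (C c)).eval w := by
  unfold sp
  rw [eval_map]
  have h := Polynomial.hom_eval₂ T (RingHom.id (Polynomial (RF p))) (evalRingHom w) (C c)
  rw [RingHom.comp_id, coe_evalRingHom, eval_C] at h
  exact h.symm

theorem lib_sp_eval_nat (w : RF p) (T : Polynomial (Polynomial (RF p))) (i : ℕ) :
    (sp w T).eval (i : RF p) = (T.eval (i : Polynomial (RF p))).eval w := by
  rw [lib_sp_eval, map_natCast C i]

/-- two polynomials of degree `≤ n` with proportional values at more than `n` points -/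
theorem lib_prop {F : Type} [Field F] {n : ℕ} {φ ψ : Polynomial F} (hφ : φ.natDegree ≤ n)
    (hψ : ψ.natDegree ≤ n) (S : Finset F) (hS : n < S.card) (s : F)
    (h : ∀ x ∈ S, ψ.eval x = s * φ.eval x) : ψ = C s * φ := by
  rw [← sub_eq_zero]
  refine Polynomial.eq_zero_of_natDegree_lt_card_of_eval_eq_zero' _ S ?_ ?_
  · intro x hx
    rw [eval_sub, eval_mul, eval_C, h x hx, sub_self]
  · refine lt_of_le_of_lt ?_ hS
    refine (natDegree_sub_le _ _).trans (max_le hψ ?_)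
    exact (natDegree_C_mul_le _ _).trans hφ

end Pool.Agent.Helper60.FF
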