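import Pool.Agent.Helper60.FF.KD

/-!
# Part C: the p-adic theorem (statements)

Blueprint: /team-store/ff_blueprint.md, sections II.2 - II.6
-/

set_option autoImplicit false

namespace Pool.Agent.Helper60.FF

open Polynomial

section

variable {p : ℕ} [hp : Fact p.Prime] {n : ℕ}

/-- the test functions `i` and `y + i` at the disc `(a, ϖ)` -/
noncomputable def cc (A : Subfield ℂ_[p]) (a ϖ : A) (b : Bool) (i : ℕ) : RatFunc A :=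
  (if b = true then yy A a ϖ else 0) + ((i : ℕ) : RatFunc A)

/-- the property of Theorem P1: `T(w; X)` is the reduction of `χ τ` for most `τ` in the residue disc `w` of
the disc `(a, ϖ)` -/
def TP (K : KD p n) (a ϖ : ℂ_[p]) (T : Polynomial (Polynomial (RF p))) : Prop :=
  T ≠ 0 ∧ T.natDegree ≤ n ∧ ∃ B : Set (RF p), B.Finite ∧
    ∀ (E₁ : IntermediateField ℚ_[p] ℂ_[p]) (π₁ : ℂ_[p]) (f₁ : ℕ), LF E₁ π₁ f₁ → K.E₀ ≤ E₁ → a ∈ E₁ →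
    ϖ ∈ E₁ → ∀ (E : IntermediateField ℚ_[p] ℂ_[p]) (π : ℂ_[p]) (f M : ℕ), LF E π f → E₁ ≤ E → 0 < M →
    4 * n + 2 ∣ M → ‖π‖ ^ M = ‖π₁‖ → ∀ ζ ∈ E, ‖ζ‖ ≤ 1 → ζ ^ (p ^ f) = ζ → res ζ ∉ B →
    ∃ Z : Finset (RF p), Z.card ≤ 2 * n + 1 ∧ ∀ z ∈ E, ‖z‖ ≤ 1 → res z ∉ Z → ∀ τ ∈ E, τ ∉ K.A →
      ‖(τ - a) / ϖ - ζ - π * z‖ ≤ ‖π‖ ^ 2 → Red (K.χ τ) (sp (res ζ) T)

/-- the coefficients of `T` are in the residue field of every field of definition of the disc -/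
def TC (K : KD p n) (a ϖ : ℂ_[p]) (T : Polynomial (Polynomial (RF p))) : Prop :=
  ∀ (E₁ : IntermediateField ℚ_[p] ℂ_[p]) (π₁ : ℂ_[p]) (f₁ : ℕ), LF E₁ π₁ f₁ → K.E₀ ≤ E₁ → a ∈ E₁ →
    ϖ ∈ E₁ → ∀ i j, (T.coeff i).coeff j ∈ Fq p f₁

/-- the reduction at the disc is the constant polynomial `φ` -/
def CT (K : KD p n) (a ϖ : ℂ_[p]) (φ : Polynomial (RF p)) : Prop := TP K a ϖ (φ.map C)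

/-- the open disc of radius `R` around `a` is good with constant `φ` -/
def GD (K : KD p n) (a : K.A) (R : ℝ) (φ : Polynomial (RF p)) : Prop :=
  0 < R ∧ φ ≠ 0 ∧ φ.natDegree ≤ n ∧ ∀ v ϖ : K.A, ‖(v : ℂ_[p]) - a‖ < R → ϖ ≠ 0 → ‖(ϖ : ℂ_[p])‖ < R →
    CT K v ϖ φ

/-- the finite set `Σ` -/
def Sg (K : KD p n) : Set K.A :=
  {v | v = 0 ∨ ∃ i : ℕ, i < 4 * n ^ 2 + 2 * n ∧ ordv K.A v (K.H (4 * n + 2) ((i : ℕ) : RatFunc K.A)) ≠ 0}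

end

/-- FINQ: FINF for the subfields `Fq p f` of the residue field -/
def ST_FINQ : Prop :=
  ∀ (p n f : ℕ) [Fact p.Prime], PP p n → 0 < f → ∀ (w : RF p) (α ω : Bool → ℕ → RF p)
    (c : ℕ → ℕ → RF p) (S : RF p → Polynomial (RF p) → Polynomial (RF p) → Prop),
    w ∈ Fq p f → (∀ b i, i ≤ 2 * n → α b i ∈ Fq p f ∧ ω b i ∈ Fq p f) → (∀ i j, c i j ∈ Fq p f) →
    (∀ z ∈ Fq p f, ∃ χ ψ, S z χ ψ) →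
    (∀ z ∈ Fq p f, ∀ χ ψ, S z χ ψ → χ ≠ 0 ∧ (∀ j, χ.coeff j ∈ Fq p f) ∧ (∀ j, ψ.coeff j ∈ Fq p f) ∧
      Sy n w z (fun b i => α b i + z * ω b i) χ ψ ∧
      ∀ i j : ℕ, i ≤ n → j ≤ n → χ.eval (i : RF p) ≠ 0 → χ.eval (j : RF p) ≠ 0 → ∃ s ∈ Fq p f, s ≠ 0 ∧
        χ.eval (i : RF p) = c i j * χ.eval (j : RF p) * s ^ (4 * n + 2)) →
    ∃ (χ₀ ψ₁ : Polynomial (RF p)) (Z : Finset (RF p)), χ₀ ≠ 0 ∧ Sy n w 1 ω χ₀ ψ₁ ∧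
      Z.card ≤ 2 * n + 1 ∧ ∀ z ∈ Fq p f, z ∉ Z → ∀ χ ψ, S z χ ψ → ∃ s : RF p, s ≠ 0 ∧ χ = C s * χ₀

/-- P1A: the linear system for the reduction of `χ τ` and of its derivative -/
def ST_P1A : Prop :=
  ∀ (p n : ℕ) [Fact p.Prime], PP p n → ∀ (K : KD p n) (a ϖ : K.A), ϖ ≠ 0 →
    ∀ (Em : IntermediateField ℚ_[p] ℂ_[p]), FiniteDimensional ℚ_[p] Em → K.E₀ ≤ Em →
    (a : ℂ_[p]) ∈ Em → (ϖ : ℂ_[p]) ∈ Em →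
    ∀ (κ κ' : Bool → ℕ → ℂ_[p]) (P Q P' Q' : Bool → ℕ → Polynomial ℂ_[p]),
    (∀ b i, i ≤ 2 * n → Rdx Em (κ b i) (K.H p (cc K.A a ϖ b i)) a ϖ (P b i) (Q b i)) →
    (∀ b i, i ≤ 2 * n → Rdx Em (κ' b i) (K.H (4 * n + 2) (cc K.A a ϖ b i)) a ϖ (P' b i) (Q' b i)) →
    ∀ (E₁ : IntermediateField ℚ_[p] ℂ_[p]) (π₁ : ℂ_[p]) (f₁ : ℕ), LF E₁ π₁ f₁ → Em ≤ E₁ →
    ∀ (E : IntermediateField ℚ_[p] ℂ_[p]) (π : ℂ_[p]) (f M : ℕ), LF E π f → E₁ ≤ E → 0 < M →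
    4 * n + 2 ∣ M → ‖π‖ ^ M = ‖π₁‖ → ∀ ζ ∈ E, ‖ζ‖ ≤ 1 → ζ ^ (p ^ f) = ζ →
    (∀ b i, i ≤ 2 * n → (rd (P b i)).eval (res ζ) ≠ 0 ∧ (rd (Q b i)).eval (res ζ) ≠ 0 ∧
      (rd (P' b i)).eval (res ζ) ≠ 0 ∧ (rd (Q' b i)).eval (res ζ) ≠ 0) →
    ∃ (α : Bool → ℕ → RF p) (c : ℕ → ℕ → RF p), (∀ b i, α b i ∈ Fq p f) ∧ (∀ i j, c i j ∈ Fq p f) ∧
      ∀ z ∈ E, ‖z‖ ≤ 1 → ∀ τ ∈ E, τ ∉ K.A →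
      ‖(τ - (a : ℂ_[p])) / (ϖ : ℂ_[p]) - ζ - π * z‖ ≤ ‖π‖ ^ 2 → ∃ χ ψ : Polynomial (RF p), Red (K.χ τ) χ ∧
        (∀ j, χ.coeff j ∈ Fq p f) ∧ (∀ j, ψ.coeff j ∈ Fq p f) ∧
        Sy n (res ζ) (res z) (fun b i => α b i + res z *
          ((derivative (rd (P b i))).eval (res ζ) / (rd (P b i)).eval (res ζ) -
            (derivative (rd (Q b i))).eval (res ζ) / (rd (Q b i)).eval (res ζ))) χ ψ ∧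
        ∀ i j : ℕ, i ≤ n → j ≤ n → χ.eval (i : RF p) ≠ 0 → χ.eval (j : RF p) ≠ 0 → ∃ s ∈ Fq p f, s ≠ 0 ∧
          χ.eval (i : RF p) = c i j * χ.eval (j : RF p) * s ^ (4 * n + 2)

/-- P1: the reduction of `χ τ` is a rational function of the residue of `τ` -/
def ST_P1 : Prop :=
  ∀ (p n : ℕ) [Fact p.Prime], PP p n → ∀ (K : KD p n) (a ϖ : K.A), ϖ ≠ 0 →
    ∃ T : Polynomial (Polynomial (RF p)), TP K a ϖ T ∧ TC K a ϖ T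

/-- EXI: existence of points with prescribed reduction (convenient form of TP). -/
def ST_EXI : Prop :=
  ∀ (p n : ℕ) [Fact p.Prime], PP p n → ∀ (K : KD p n) (a ϖ : K.A), ϖ ≠ 0 →
    ∀ T : Polynomial (Polynomial (RF p)), TP K a ϖ T → ∃ B : Set (RF p), B.Finite ∧
    ∀ (E₁ : IntermediateField ℚ_[p] ℂ_[p]) (π₁ : ℂ_[p]) (f₁ : ℕ), LF E₁ π₁ f₁ → K.E₀ ≤ E₁ →
    (a : ℂ_[p]) ∈ E₁ → (ϖ : ℂ_[p]) ∈ E₁ → ∀ (E : IntermediateField ℚ_[p] ℂ_[p]) (π : ℂ_[p]) (f M : ℕ),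
    LF E π f → E₁ ≤ E → 0 < M → 4 * n + 2 ∣ M → ‖π‖ ^ M = ‖π₁‖ → ∀ w ∈ Fq p f, w ∉ B →
    ∃ τ ∈ E, τ ∉ K.A ∧ ‖(τ - (a : ℂ_[p])) / (ϖ : ℂ_[p])‖ ≤ 1 ∧
    res ((τ - (a : ℂ_[p])) / (ϖ : ℂ_[p])) = w ∧ Red (K.χ τ) (sp w T)

/-- DI: comparison of two parametrizations of the same disc -/
def ST_DI : Prop :=
  ∀ (p n : ℕ) [Fact p.Prime], PP p n → ∀ (K : KD p n) (a ϖ a' ϖ' : K.A), ϖ ≠ 0 → ϖ' ≠ 0 →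
    ‖(ϖ : ℂ_[p])‖ = ‖(ϖ' : ℂ_[p])‖ → ‖(a : ℂ_[p]) - a'‖ ≤ ‖(ϖ : ℂ_[p])‖ →
    ∀ T T' : Polynomial (Polynomial (RF p)), TP K a ϖ T → TP K a' ϖ' T' →
    {w : RF p | ¬ ∃ s : RF p, s ≠ 0 ∧ sp w T =
      C s * sp (res ((ϖ : ℂ_[p]) / (ϖ' : ℂ_[p])) * w +
        res (((a : ℂ_[p]) - (a' : ℂ_[p])) / (ϖ' : ℂ_[p]))) T'}.Finite

/-- DIC: constant reductions -/
def ST_DIC : Prop :=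
  ∀ (p n : ℕ) [Fact p.Prime], PP p n → ∀ K : KD p n,
    (∀ (a ϖ a' ϖ' : K.A), ϖ ≠ 0 → ϖ' ≠ 0 → ‖(ϖ : ℂ_[p])‖ = ‖(ϖ' : ℂ_[p])‖ →
      ‖(a : ℂ_[p]) - a'‖ ≤ ‖(ϖ : ℂ_[p])‖ → ∀ φ, CT K a ϖ φ → CT K a' ϖ' φ ∧
        ∀ φ', CT K a' ϖ' φ' → ∃ s : RF p, s ≠ 0 ∧ φ' = C s * φ) ∧
    (∀ (a ϖ : K.A) (P : Polynomial (RF p)) (φ : Polynomial (RF p)), P ≠ 0 →
      TP K a ϖ (C P * φ.map C) → CT K a ϖ φ) ∧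
    (∀ (a ϖ : K.A) (φ : Polynomial (RF p)) (s : RF p), s ≠ 0 → CT K a ϖ φ → CT K a ϖ (C s * φ)) ∧
    (∀ (a ϖ : K.A) (φ : Polynomial (RF p)), ϖ ≠ 0 → CT K a ϖ φ →
      ∃ (T : Polynomial (Polynomial (RF p))) (P : Polynomial (RF p)), P ≠ 0 ∧ TP K a ϖ T ∧ TC K a ϖ T ∧
        T = C P * φ.map C)

/-- P3: values of `T` at natural numbers modulo `N`-th powers -/
def ST_P3 : Prop :=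
  ∀ (p n : ℕ) [Fact p.Prime], PP p n → ∀ (K : KD p n) (a ϖ : K.A), ϖ ≠ 0 →
    ∀ T : Polynomial (Polynomial (RF p)), TP K a ϖ T → TC K a ϖ T →
    ∀ (E₁ : IntermediateField ℚ_[p] ℂ_[p]) (π₁ : ℂ_[p]) (f₁ : ℕ), LF E₁ π₁ f₁ → K.E₀ ≤ E₁ →
    (a : ℂ_[p]) ∈ E₁ → (ϖ : ℂ_[p]) ∈ E₁ → ∀ N : ℕ, 0 < N → N ∣ p ^ f₁ - 1 → ∀ i j : ℕ,
    T.eval (i : Polynomial (RF p)) ≠ 0 → T.eval (j : Polynomial (RF p)) ≠ 0 →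
    ∀ (s : ℤ) (P Q : Polynomial ℂ_[p]),
    Rdx E₁ (π₁ ^ s) (K.H N ((i : ℕ) : RatFunc K.A) / K.H N ((j : ℕ) : RatFunc K.A)) a ϖ P Q →
    ∃ G₁ G₂ : Polynomial (RF p), G₁ ≠ 0 ∧ G₂ ≠ 0 ∧ (∀ k, G₁.coeff k ∈ Fq p f₁) ∧
      (∀ k, G₂.coeff k ∈ Fq p f₁) ∧
      T.eval (i : Polynomial (RF p)) * rd Q * G₂ ^ N = T.eval (j : Polynomial (RF p)) * rd P * G₁ ^ N

/-- SGF: `Σ` is finite -/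
def ST_SGF : Prop :=
  ∀ (p n : ℕ) [Fact p.Prime] (K : KD p n), (Sg K).Finite ∧ ∀ m : ℕ, 0 < m →
    {v : K.A | ∃ i : ℕ, i < 4 * n ^ 2 + 2 * n ∧ ordv K.A v (K.H m ((i : ℕ) : RatFunc K.A)) ≠ 0}.Finite

/-- L2: constancy of the reduction where at most one direction meets `Σ` -/
def ST_L2 : Prop :=
  ∀ (p n : ℕ) [Fact p.Prime], PP p n → ∀ (K : KD p n) (a ϖ : K.A), ϖ ≠ 0 → ∀ w₀ : RF p,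
    (∀ b ∈ Sg K, ‖((b : ℂ_[p]) - (a : ℂ_[p])) / (ϖ : ℂ_[p])‖ ≤ 1 →
      res (((b : ℂ_[p]) - (a : ℂ_[p])) / (ϖ : ℂ_[p])) = w₀) →
    ∃ φ : Polynomial (RF p), CT K a ϖ φ

/-- L3D: comparison of two concentric discs -/
def ST_L3D : Prop :=
  ∀ (p n : ℕ) [Fact p.Prime], PP p n → ∀ (K : KD p n) (v ϖ₁ ϖ₂ : K.A), ϖ₁ ≠ 0 →
    ‖(ϖ₁ : ℂ_[p])‖ < ‖(ϖ₂ : ℂ_[p])‖ →
    ∀ (E₁ : IntermediateField ℚ_[p] ℂ_[p]) (π₁ : ℂ_[p]) (f₁ : ℕ), LF E₁ π₁ f₁ → π₁ ∈ K.A →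
    K.E₀ ≤ E₁ → (v : ℂ_[p]) ∈ E₁ →
    (∀ (b : K.A) (i : ℕ), i < 4 * n ^ 2 + 2 * n →
      ordv K.A b (K.H (p ^ f₁ - 1) ((i : ℕ) : RatFunc K.A)) ≠ 0 →
      ‖(b : ℂ_[p]) - v‖ ≤ ‖(ϖ₁ : ℂ_[p])‖ ∨ ‖(ϖ₂ : ℂ_[p])‖ ≤ ‖(b : ℂ_[p]) - v‖) →
    ∀ φ₁ φ₂ : Polynomial (RF p), CT K v ϖ₁ φ₁ → CT K v ϖ₂ φ₂ → ∃ s : RF p, s ≠ 0 ∧ φ₂ = C s * φ₁

/-- L3: the constant does not depend on the radius -/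
def ST_L3 : Prop :=
  ∀ (p n : ℕ) [Fact p.Prime], PP p n → ∀ (K : KD p n) (v ϖ₁ ϖ₂ : K.A), ϖ₁ ≠ 0 →
    ‖(ϖ₁ : ℂ_[p])‖ < ‖(ϖ₂ : ℂ_[p])‖ →
    (∀ ϖ : K.A, ‖(ϖ₁ : ℂ_[p])‖ ≤ ‖(ϖ : ℂ_[p])‖ → ‖(ϖ : ℂ_[p])‖ ≤ ‖(ϖ₂ : ℂ_[p])‖ → ∃ φ, CT K v ϖ φ) →
    ∀ φ₁ φ₂ : Polynomial (RF p), CT K v ϖ₁ φ₁ → CT K v ϖ₂ φ₂ → ∃ s : RF p, s ≠ 0 ∧ φ₂ = C s * φ₁

/-- GDX: discs which do not meet `Σ` are good -/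
def ST_GDX : Prop :=
  ∀ (p n : ℕ) [Fact p.Prime], PP p n → ∀ (K : KD p n) (a : K.A) (R : ℝ), 0 < R →
    (∀ b ∈ Sg K, R ≤ ‖(b : ℂ_[p]) - a‖) → ∃ φ, GD K a R φ

/-- L4: orders are divisible by `m` at points where the constant does not vanish -/
def ST_L4 : Prop :=
  ∀ (p n : ℕ) [Fact p.Prime], PP p n → ∀ (K : KD p n) (v : K.A) (r₀ : ℝ) (φ : Polynomial (RF p)),
    0 < r₀ → (∀ ϖ : K.A, ϖ ≠ 0 → ‖(ϖ : ℂ_[p])‖ < r₀ → CT K v ϖ φ) → ∀ c c' : K.A,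
    ‖(c : ℂ_[p])‖ ≤ 1 → ‖(c' : ℂ_[p])‖ ≤ 1 → φ.eval (res (c : ℂ_[p])) ≠ 0 →
    φ.eval (res (c' : ℂ_[p])) ≠ 0 → ∀ m : ℕ, 0 < m →
    (m : ℤ) ∣ ordv K.A v (K.H m (RatFunc.C c)) - ordv K.A v (K.H m (RatFunc.C c'))

/-- CNJ: conjugates over `A ∩ E` have the same distance from points of `E` -/
def ST_CNJ : Prop :=
  ∀ (p : ℕ) [Fact p.Prime] (A : Subfield ℂ_[p]), IsAlgClosed A → (∀ a ∈ A, IsAlgebraic ℚ_[p] a) →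
    ∀ (E : IntermediateField ℚ_[p] ℂ_[p]), FiniteDimensional ℚ_[p] E → ∀ (a : ℂ_[p]) (R : ℝ), a ∈ E →
    ∀ P : Polynomial A, P ≠ 0 → (∀ j, ((P.coeff j : A) : ℂ_[p]) ∈ E) →
    ∃ P₁ P₂ : Polynomial A, P = P₁ * P₂ ∧ P₁.Monic ∧ (∀ j, ((P₁.coeff j : A) : ℂ_[p]) ∈ E) ∧
      (∀ j, ((P₂.coeff j : A) : ℂ_[p]) ∈ E) ∧
      (∀ v : A, P₁.eval v = 0 → ‖(v : ℂ_[p]) - a‖ < R) ∧
      (∀ v : A, P₂.eval v = 0 → R ≤ ‖(v : ℂ_[p]) - a‖)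

/-- SPL: rational functions whose orders in an open disc are divisible by `m` -/
def ST_SPL : Prop :=
  ∀ (p : ℕ) [Fact p.Prime] (A : Subfield ℂ_[p]), IsAlgClosed A → (∀ a ∈ A, IsAlgebraic ℚ_[p] a) →
    ∀ (E : IntermediateField ℚ_[p] ℂ_[p]), FiniteDimensional ℚ_[p] E → ∀ (a ϖ : A),
    (a : ℂ_[p]) ∈ E → (ϖ : ℂ_[p]) ∈ E → ϖ ≠ 0 → ∀ (m : ℕ) (h : RatFunc A), 0 < m → h ≠ 0 → Ov A E h →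
    (∀ v : A, ‖(v : ℂ_[p]) - a‖ < ‖(ϖ : ℂ_[p])‖ → (m : ℤ) ∣ ordv A v h) →
    ∃ (κ : ℂ_[p]) (g : ℕ → ℂ_[p]) (U : RatFunc A), κ ∈ E ∧ κ ≠ 0 ∧ g 0 = 1 ∧
      (∀ k, g k ∈ E ∧ ‖g k‖ ≤ 1) ∧ U ≠ 0 ∧ Ov A E U ∧
      ∀ τ : ℂ_[p], τ ∉ A → ‖τ - a‖ < ‖(ϖ : ℂ_[p])‖ →
        ev A τ h = κ * (∑' k, g k * ((τ - a) / ϖ) ^ k) * (ev A τ U) ^ m

/-- CPT: compactness -/
def ST_CPT : Prop :=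
  ∀ (p : ℕ) [Fact p.Prime] (E : IntermediateField ℚ_[p] ℂ_[p]), FiniteDimensional ℚ_[p] E →
    ∀ (κ : ℕ → ℂ_[p]) (g : ℕ → ℕ → ℂ_[p]), (∀ r, κ r ∈ E ∧ ‖κ r‖ = 1) → (∀ r, g r 0 = 1) →
    (∀ r k, g r k ∈ E ∧ ‖g r k‖ ≤ 1) →
    ∃ (κ₀ : ℂ_[p]) (g₀ : ℕ → ℂ_[p]), κ₀ ∈ E ∧ ‖κ₀‖ = 1 ∧ g₀ 0 = 1 ∧ (∀ k, g₀ k ∈ E ∧ ‖g₀ k‖ ≤ 1) ∧
      ∀ (E' : IntermediateField ℚ_[p] ℂ_[p]), FiniteDimensional ℚ_[p] E' → ∀ x ∈ E', x ≠ 0 →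
      ∀ y : ℂ_[p], ‖y‖ < 1 → ∀ W : ℕ → ℂ_[p], (∀ r, W r ∈ E') →
        (∀ r, x = κ r * (∑' k, g r k * y ^ k) * (W r) ^ (r.factorial)) →
        x = κ₀ * ∑' k, g₀ k * y ^ k

/-- L5A: quotients of values of `χ τ` on a good disc are analytic -/
def ST_L5A : Prop :=
  ∀ (p n : ℕ) [Fact p.Prime], PP p n → ∀ (K : KD p n) (a ϖ : K.A) (φ : Polynomial (RF p)), ϖ ≠ 0 →
    GD K a ‖(ϖ : ℂ_[p])‖ φ → ∀ E : IntermediateField ℚ_[p] ℂ_[p], FiniteDimensional ℚ_[p] E →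
    K.E₀ ≤ E → (a : ℂ_[p]) ∈ E → (ϖ : ℂ_[p]) ∈ E → ∀ i j : ℕ, φ.eval (i : RF p) ≠ 0 →
    φ.eval (j : RF p) ≠ 0 →
    ∃ (κ : ℂ_[p]) (g : ℕ → ℂ_[p]), κ ∈ E ∧ ‖κ‖ = 1 ∧ res κ = φ.eval (i : RF p) / φ.eval (j : RF p) ∧
      g 0 = 1 ∧ (∀ k, g k ∈ E ∧ ‖g k‖ ≤ 1) ∧
      ∀ τ : ℂ_[p], IsAlgebraic ℚ_[p] τ → τ ∉ K.A → ‖τ - a‖ < ‖(ϖ : ℂ_[p])‖ →
        (K.χ τ).eval (i : ℂ_[p]) ≠ 0 → (K.χ τ).eval (j : ℂ_[p]) ≠ 0 →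
        (K.χ τ).eval (i : ℂ_[p]) = κ * (∑' k, g k * ((τ - a) / ϖ) ^ k) * (K.χ τ).eval (j : ℂ_[p])

/-- L5: `χ τ` is analytic up to a factor on a good disc -/
def ST_L5 : Prop :=
  ∀ (p n : ℕ) [Fact p.Prime], PP p n → ∀ (K : KD p n) (a ϖ : K.A) (φ : Polynomial (RF p)), ϖ ≠ 0 →
    GD K a ‖(ϖ : ℂ_[p])‖ φ →
    (∀ τ : ℂ_[p], IsAlgebraic ℚ_[p] τ → τ ∉ K.A → ‖τ - a‖ < ‖(ϖ : ℂ_[p])‖ → Red (K.χ τ) φ) ∧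
    ∀ E : IntermediateField ℚ_[p] ℂ_[p], FiniteDimensional ℚ_[p] E →
    K.E₀ ≤ E → (a : ℂ_[p]) ∈ E → (ϖ : ℂ_[p]) ∈ E →
    ∃ G : ℕ → ℕ → ℂ_[p], (∀ j k, G j k ∈ E ∧ ‖G j k‖ ≤ 1) ∧
      (∃ s : RF p, s ≠ 0 ∧ ∀ j, res (G j 0) = s * φ.coeff j) ∧
      (∀ j k, n < j → G j k = 0) ∧
      ∀ τ : ℂ_[p], IsAlgebraic ℚ_[p] τ → τ ∉ K.A → ‖τ - a‖ < ‖(ϖ : ℂ_[p])‖ →
        ∃ r : ℂ_[p], r ≠ 0 ∧ ∀ j, r * (K.χ τ).coeff j = ∑' k, G j k * ((τ - a) / ϖ) ^ k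

/-- WEI: zeros of bounded power series over `E` -/
def ST_WEI : Prop :=
  ∀ (p : ℕ) [Fact p.Prime] (E : IntermediateField ℚ_[p] ℂ_[p]), FiniteDimensional ℚ_[p] E →
    ∀ g : ℕ → ℂ_[p], (∀ k, g k ∈ E ∧ ‖g k‖ ≤ 1) → (∃ k, g k ≠ 0) →
    ∃ (P : Polynomial ℂ_[p]) (Cc : ℝ), P.Monic ∧ (∀ j, P.coeff j ∈ E) ∧
      (∀ x : ℂ_[p], P.eval x = 0 → ‖x‖ < 1) ∧ 0 < Cc ∧
      ∀ y : ℂ_[p], ‖y‖ < 1 → ‖∑' k, g k * y ^ k‖ = Cc * ‖P.eval y‖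

/-- DSK: the zeros of `χ τ (c)` on a good disc -/
def ST_DSK : Prop :=
  ∀ (p n : ℕ) [Fact p.Prime], PP p n → ∀ (K : KD p n) (a ϖ : K.A) (φ : Polynomial (RF p)), ϖ ≠ 0 →
    GD K a ‖(ϖ : ℂ_[p])‖ φ → ∃ S : Set K.A, S.Finite ∧ ∀ c : K.A, ‖(c : ℂ_[p])‖ ≤ 1 → c ∉ S →
    ∀ E : IntermediateField ℚ_[p] ℂ_[p], FiniteDimensional ℚ_[p] E → K.E₀ ≤ E → (a : ℂ_[p]) ∈ E →
    (ϖ : ℂ_[p]) ∈ E → (c : ℂ_[p]) ∈ E →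
    ∃ P : Polynomial K.A, P.Monic ∧ (∀ j, ((P.coeff j : K.A) : ℂ_[p]) ∈ E) ∧
      (∀ v : K.A, P.eval v = 0 → ‖(v : ℂ_[p]) - a‖ < ‖(ϖ : ℂ_[p])‖) ∧
      (∀ τ : ℂ_[p], IsAlgebraic ℚ_[p] τ → τ ∉ K.A → ‖τ - a‖ < ‖(ϖ : ℂ_[p])‖ →
        (K.χ τ).eval (c : ℂ_[p]) ≠ 0) ∧
      ∀ c' : K.A, ‖(c' : ℂ_[p])‖ ≤ 1 → φ.eval (res (c' : ℂ_[p])) ≠ 0 → ∀ m : ℕ, 0 < m →
        ∀ v : K.A, ‖(v : ℂ_[p]) - a‖ < ‖(ϖ : ℂ_[p])‖ →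
        (m : ℤ) ∣ ordv K.A v (K.H m (RatFunc.C c)) - ordv K.A v (K.H m (RatFunc.C c')) -
          P.rootMultiplicity v

/-- DNS: `A` is dense; every residue has infinitely many lifts in `A`. -/
def ST_DNS : Prop :=
  ∀ (p : ℕ) [Fact p.Prime] (A : Subfield ℂ_[p]), IsAlgClosed A →
    (∀ (x : ℂ_[p]) (δ : ℝ), 0 < δ → ∃ a ∈ A, ‖x - a‖ < δ) ∧
    ∀ γ : RF p, {c : A | ‖(c : ℂ_[p])‖ ≤ 1 ∧ res (c : ℂ_[p]) = γ}.Infinite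

/-- OVE: every rational function over `A` is defined over `A ∩ E` for some finite `E`. -/
def ST_OVE : Prop :=
  ∀ (p : ℕ) [Fact p.Prime] (A : Subfield ℂ_[p]), (∀ a ∈ A, IsAlgebraic ℚ_[p] a) →
    ∀ (E : IntermediateField ℚ_[p] ℂ_[p]), FiniteDimensional ℚ_[p] E → ∀ c : RatFunc A,
    ∃ E' : IntermediateField ℚ_[p] ℂ_[p], FiniteDimensional ℚ_[p] E' ∧ E ≤ E' ∧
      ∀ E'' : IntermediateField ℚ_[p] ℂ_[p], E' ≤ E'' → Ov A E'' c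

/-- EDG: the constants on the edges -/
def ST_EDG : Prop :=
  ∀ (p n : ℕ) [Fact p.Prime], PP p n → ∀ K : KD p n, ∃ Φ : Set (Polynomial (RF p)), Φ.Finite ∧
    (∀ φ ∈ Φ, φ ≠ 0) ∧
    (∀ b ∈ Sg K, ∀ ϖ : K.A, ϖ ≠ 0 →
      (∀ b' ∈ Sg K, b' ≠ b → ‖(b' : ℂ_[p]) - b‖ ≠ ‖(ϖ : ℂ_[p])‖) → ∃ φ ∈ Φ, CT K b ϖ φ) ∧
    (∀ b ∈ Sg K, ∃ φ ∈ Φ, ∃ r₀ : ℝ, 0 < r₀ ∧
      ∀ ϖ : K.A, ϖ ≠ 0 → ‖(ϖ : ℂ_[p])‖ < r₀ → CT K b ϖ φ)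

/-- VTX: the reduction at a vertex and the constants of the good discs -/
def ST_VTX : Prop :=
  ∀ (p n : ℕ) [Fact p.Prime], PP p n → ∀ (K : KD p n) (b b' : K.A), b' ≠ b →
    ∃ (T : Polynomial (Polynomial (RF p))) (W : Set (RF p)), T ≠ 0 ∧ W.Finite ∧
      ∀ (v : K.A) (φ : Polynomial (RF p)), ‖(v : ℂ_[p]) - b‖ ≤ ‖(b' : ℂ_[p]) - b‖ →
        GD K v ‖(b' : ℂ_[p]) - b‖ φ →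
        res (((v : ℂ_[p]) - (b : ℂ_[p])) / ((b' : ℂ_[p]) - (b : ℂ_[p]))) ∉ W →
        ∃ s : RF p, s ≠ 0 ∧
          sp (res (((v : ℂ_[p]) - (b : ℂ_[p])) / ((b' : ℂ_[p]) - (b : ℂ_[p])))) T = C s * φ

/-- EDV: a good disc inside a disc with constant reduction -/
def ST_EDV : Prop :=
  ∀ (p n : ℕ) [Fact p.Prime], PP p n → ∀ (K : KD p n) (v b ϖ : K.A) (φ φ' : Polynomial (RF p)),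
    ϖ ≠ 0 → GD K v ‖(ϖ : ℂ_[p])‖ φ → ‖(v : ℂ_[p]) - b‖ ≤ ‖(ϖ : ℂ_[p])‖ → CT K b ϖ φ' →
    ∃ s : RF p, s ≠ 0 ∧ φ' = C s * φ

/-- FND: for almost all residues `γ` the zeros of `χ τ (c)`, `res c = γ`, are in finitely many good discs -/
def ST_FND : Prop :=
  ∀ (p n : ℕ) [Fact p.Prime], PP p n → ∀ K : KD p n, ∃ Γ : Set (RF p), Γ.Finite ∧ ∀ γ : RF p, γ ∉ Γ →
    ∃ DD : Set (K.A × K.A), DD.Finite ∧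
      (∀ d ∈ DD, d.2 ≠ 0 ∧ ∃ φ, GD K d.1 ‖(d.2 : ℂ_[p])‖ φ) ∧
      (∀ d ∈ DD, ∀ d' ∈ DD, d ≠ d' → ‖(d.2 : ℂ_[p])‖ ≤ ‖(d.1 : ℂ_[p]) - d'.1‖) ∧
      (∀ v : K.A, (∃ d ∈ DD, ‖(v : ℂ_[p]) - d.1‖ < ‖(d.2 : ℂ_[p])‖) ∨
        ∃ (φ : Polynomial (RF p)) (r₀ : ℝ), 0 < r₀ ∧ φ.eval γ ≠ 0 ∧
          ∀ ϖ : K.A, ϖ ≠ 0 → ‖(ϖ : ℂ_[p])‖ < r₀ → CT K v ϖ φ) ∧
      (∀ τ : ℂ_[p], IsAlgebraic ℚ_[p] τ → τ ∉ K.A →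
        (∃ d ∈ DD, ‖τ - d.1‖ < ‖(d.2 : ℂ_[p])‖) ∨
        ∃ φ : Polynomial (RF p), Red (K.χ τ) φ ∧ φ.eval γ ≠ 0)

/-- R1A: generic constants; the orders of `H m (c i) / H m (c j)` -/
def ST_R1A : Prop :=
  ∀ (p n : ℕ) [Fact p.Prime], PP p n → ∀ K : KD p n, ∃ c : ℕ → K.A, Function.Injective c ∧
    (∀ (i : ℕ) (τ : ℂ_[p]), IsAlgebraic ℚ_[p] τ → τ ∉ K.A → (K.χ τ).eval (c i : ℂ_[p]) ≠ 0) ∧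
    ∀ i j : ℕ, ∃ r : RatFunc K.A, r ≠ 0 ∧ ∀ m : ℕ, 0 < m → ∀ v : K.A,
      (m : ℤ) ∣ ordv K.A v (K.H m (RatFunc.C (c i))) - ordv K.A v (K.H m (RatFunc.C (c j))) -
        ordv K.A v r

/-- R1: quotients of values of `χ τ` at generic constants are rational functions up to constants -/
def ST_R1 : Prop :=
  ∀ (p n : ℕ) [Fact p.Prime], PP p n → ∀ K : KD p n, ∃ c : ℕ → K.A, Function.Injective c ∧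
    (∀ (i : ℕ) (τ : ℂ_[p]), IsAlgebraic ℚ_[p] τ → τ ∉ K.A → (K.χ τ).eval (c i : ℂ_[p]) ≠ 0) ∧
    ∀ i j : ℕ, ∃ (β : ℂ_[p]) (r : RatFunc K.A), β ≠ 0 ∧ r ≠ 0 ∧ IsAlgebraic ℚ_[p] β ∧
      ∀ τ : ℂ_[p], IsAlgebraic ℚ_[p] τ → τ ∉ K.A →
        (K.χ τ).eval (c i : ℂ_[p]) = β * ev K.A τ r * (K.χ τ).eval (c j : ℂ_[p])

/-- M1: a polynomial which is a quotient of values of `χ τ` has all its roots in `A` -/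
def ST_M1 : Prop :=
  ∀ (p n : ℕ) [Fact p.Prime], PP p n → ∀ (K : KD p n) (c c₀ : RatFunc K.A) (d : Polynomial K.A)
    (N : Polynomial ℂ_[p]), d ≠ 0 → (∀ j, IsAlgebraic ℚ_[p] (N.coeff j)) →
    (∀ τ : ℂ_[p], IsAlgebraic ℚ_[p] τ → τ ∉ K.A → (K.χ τ).eval (ev K.A τ c₀) ≠ 0 ∧
      d.eval₂ K.A.subtype τ * (K.χ τ).eval (ev K.A τ c) =
        N.eval τ * (K.χ τ).eval (ev K.A τ c₀)) →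
    ∃ (s : ℂ_[p]) (N' : Polynomial K.A), N = C s * N'.map K.A.subtype

/-- M2: descent of the coefficients -/
def ST_M2 : Prop :=
  ∀ (L : Type) [Field L] [CharZero L] (A : Subfield L) (n : ℕ) (c : Fin (n + 1) → A)
    (β : Fin (n + 1) → L) (r : Fin (n + 1) → Polynomial A), Function.Injective c → β 0 = 1 →
    (∀ l, r l ≠ 0) →
    (∀ a b : A, ∃ (s : L) (N : Polynomial A),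
      ∑ l, C (β l) * (r l * (Lagrange.basis Finset.univ c l).comp (C a + C b * X)).map A.subtype =
        C s * N.map A.subtype) →
    ∀ l, β l ∈ A

end Pool.Agent.Helper60.FF
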